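import Mathlib

/-!
# Atkin-Lehner matrices which make two denominators small
-/

namespace Pool.Agent.K4H24.SZ

lemma coprime_parts {N G Q : ℕ} (hN : Squarefree N) (h : N = G * Q) : Nat.Coprime G Q := by
  rw [h] at hN
  exact (Nat.squarefree_mul_iff.1 hN).1

/-- If `G = gcd(N, e)` and `N = G Q` is squarefree then `Q` is prime to `e`. -/
lemma isCoprime_of_gcd {N Q : ℕ} (hN : Squarefree N) {e : ℤ} (h : N = Int.gcd N e * Q) :
    IsCoprime (Q : ℤ) e := by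
  have h1 := coprime_parts hN h
  rw [Int.isCoprime_iff_gcd_eq_one]
  have h2 : Int.gcd (Q : ℤ) e ∣ Int.gcd N e := by
    apply Int.dvd_gcd
    · have h3 : ((Int.gcd (Q : ℤ) e : ℕ) : ℤ) ∣ (Q : ℤ) := Int.gcd_dvd_left _ _
      refine h3.trans ?_
      refine ⟨Int.gcd N e, ?_⟩
      have h4 : ((N : ℕ) : ℤ) = (Int.gcd N e : ℤ) * Q := by exact_mod_cast h
      linear_combination h4
    · exact Int.gcd_dvd_right _ _
  have h3 : Int.gcd (Q : ℤ) e ∣ Q := by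
    have h4 : ((Int.gcd (Q : ℤ) e : ℕ) : ℤ) ∣ (Q : ℤ) := Int.gcd_dvd_left _ _
    exact_mod_cast h4
  exact Nat.eq_one_of_dvd_coprimes h1 h2 h3

/-- Thue's lemma. -/
lemma thue {N : ℕ} (hN : 1 ≤ N) (c d : ℤ) : ∃ s t : ℤ, (s ≠ 0 ∨ t ≠ 0) ∧ s ^ 2 ≤ N ∧ t ^ 2 ≤ N ∧
    (N : ℤ) ∣ s * d - t * c := by
  haveI : NeZero N := ⟨by omega⟩
  set k := Nat.sqrt N with hk
  have hcard : Fintype.card (ZMod N) < Fintype.card (Fin (k + 1) × Fin (k + 1)) := by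
    rw [ZMod.card, Fintype.card_prod, Fintype.card_fin]
    exact Nat.lt_succ_sqrt N
  obtain ⟨x, y, hxy, hf⟩ := Fintype.exists_ne_map_eq_of_card_lt
    (fun x : Fin (k + 1) × Fin (k + 1) =>
      (((x.1 : ℕ) : ℤ) * d - ((x.2 : ℕ) : ℤ) * c : ZMod N)) hcard
  have hsq : ∀ i j : Fin (k + 1), (((i : ℕ) : ℤ) - ((j : ℕ) : ℤ)) ^ 2 ≤ N := by
    intro i j
    have h1 : ((i : ℕ) : ℤ) ≤ k := by exact_mod_cast Nat.lt_succ_iff.1 i.2
    have h2 : ((j : ℕ) : ℤ) ≤ k := by exact_mod_cast Nat.lt_succ_iff.1 j.2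
    have h3 : (0 : ℤ) ≤ ((i : ℕ) : ℤ) := by positivity
    have h4 : (0 : ℤ) ≤ ((j : ℕ) : ℤ) := by positivity
    have h5 : ((k : ℕ) : ℤ) * k ≤ N := by exact_mod_cast Nat.sqrt_le N
    nlinarith
  refine ⟨((x.1 : ℕ) : ℤ) - ((y.1 : ℕ) : ℤ), ((x.2 : ℕ) : ℤ) - ((y.2 : ℕ) : ℤ), ?_, hsq _ _,
    hsq _ _, ?_⟩
  · by_contra hc
    push Not at hc
    apply hxy
    apply Prod.ext
    · apply Fin.ext
      have := hc.1
      omega
    · apply Fin.ext
      have := hc.2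
      omega
  · rw [← ZMod.intCast_zmod_eq_zero_iff_dvd]
    push_cast
    have hf' : (((x.1 : ℕ) : ℤ) * d - ((x.2 : ℕ) : ℤ) * c : ZMod N) =
      (((y.1 : ℕ) : ℤ) * d - ((y.2 : ℕ) : ℤ) * c : ZMod N) := hf
    push_cast at hf'
    linear_combination hf'

/-- For two cusps `m / c`, `n / d` with `m d - n c = 1` there is an Atkin-Lehner matrix
`(Q x, y; N z, Q w)` which carries them to cusps with denominators at most `√N`. -/
theorem exists_al {N : ℕ} (hN : 1 ≤ N) (hsq : Squarefree N) {m c n d : ℤ} (h : m * d - n * c = 1) :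
    ∃ Q : ℕ, Q ∣ N ∧ ∃ x y z w : ℤ, (Q : ℤ) * x * w - ((N / Q : ℕ) : ℤ) * y * z = 1 ∧
      ((N : ℤ) * z * m + Q * w * c) ^ 2 ≤ N ∧ ((N : ℤ) * z * n + Q * w * d) ^ 2 ≤ N := by
  obtain ⟨s, t, hst, hs, ht, hdvd⟩ := thue hN c d
  set δ : ℕ := Int.gcd s t with hδ
  have hδ0 : 0 < δ := by
    rw [hδ, Int.gcd_pos_iff]
    exact hst
  obtain ⟨s0, hs0⟩ : (δ : ℤ) ∣ s := Int.gcd_dvd_left _ _
  obtain ⟨t0, ht0⟩ : (δ : ℤ) ∣ t := Int.gcd_dvd_right _ _
  have hδz : (0 : ℤ) < δ := by exact_mod_cast hδ0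
  have hcop : IsCoprime s0 t0 := by
    obtain ⟨u, v, huv⟩ : ∃ u v : ℤ, (δ : ℤ) = s * u + t * v := ⟨_, _, Int.gcd_eq_gcd_ab s t⟩
    refine ⟨u, v, ?_⟩
    have h1 : (δ : ℤ) * (u * s0 + v * t0) = (δ : ℤ) * 1 := by
      rw [mul_one]
      linear_combination -huv - u * hs0 - v * ht0
    exact mul_left_cancel₀ hδz.ne' h1
  set e : ℤ := s0 * d - t0 * c with he
  set G : ℕ := Int.gcd N e with hG
  have hG0 : 0 < G := by
    rw [hG, Int.gcd_pos_iff]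
    left
    exact_mod_cast (by omega : N ≠ 0)
  obtain ⟨Q, hQ⟩ : G ∣ N := by
    have : (G : ℤ) ∣ (N : ℤ) := Int.gcd_dvd_left _ _
    exact_mod_cast this
  obtain ⟨z, hz⟩ : (G : ℤ) ∣ e := Int.gcd_dvd_right _ _
  have hQe : IsCoprime (Q : ℤ) e := isCoprime_of_gcd hsq hQ
  have hNG : (N : ℤ) = (G : ℤ) * Q := by exact_mod_cast hQ
  have hQδ : (Q : ℤ) ∣ (δ : ℤ) := by
    have h1 : (N : ℤ) ∣ (δ : ℤ) * e := by
      have : s * d - t * c = (δ : ℤ) * e := by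
        rw [he]
        linear_combination d * hs0 - c * ht0
      rwa [this] at hdvd
    have h2 : (Q : ℤ) ∣ (δ : ℤ) * e := (Dvd.intro_left (G : ℤ) hNG.symm).trans h1
    exact hQe.dvd_of_dvd_mul_right h2
  have hQ0 : 0 < Q := by
    rcases Nat.eq_zero_or_pos Q with h0 | h0
    · rw [h0, mul_zero] at hQ
      omega
    · exact h0
  set w : ℤ := m * t0 - n * s0 with hw
  have hs1 : w * c + e * m = s0 := by
    rw [hw, he]
    linear_combination s0 * h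
  have ht1 : w * d + e * n = t0 := by
    rw [hw, he]
    linear_combination t0 * h
  have hwe : IsCoprime w e := by
    obtain ⟨u, v, huv⟩ := hcop
    exact ⟨u * c + v * d, u * m + v * n, by linear_combination huv + u * hs1 + v * ht1⟩
  have hQwe : IsCoprime ((Q : ℤ) * w) e := hQe.mul_left hwe
  obtain ⟨x, y, hxy⟩ := hQwe
  have hdiv : N / Q = G := by
    rw [hQ]
    exact Nat.mul_div_cancel _ hQ0
  have hsmall : ∀ {s s0 : ℤ}, s = δ * s0 → s ^ 2 ≤ N → ((Q : ℤ) * s0) ^ 2 ≤ N := by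
    intro s s0 hs0 hs
    obtain ⟨k, hk⟩ := hQδ
    have hk0 : 1 ≤ k ^ 2 := by
      have : k ≠ 0 := by
        rintro rfl
        rw [mul_zero] at hk
        omega
      have : 0 < k ^ 2 := by positivity
      omega
    have h1 : s ^ 2 = ((Q : ℤ) * s0) ^ 2 * k ^ 2 := by
      rw [hs0, hk]
      ring
    have h2 : 0 ≤ ((Q : ℤ) * s0) ^ 2 := sq_nonneg _
    nlinarith
  refine ⟨Q, Dvd.intro_left G hQ.symm, x, -y, z, w, ?_, ?_, ?_⟩
  · rw [hdiv]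
    linear_combination hxy - y * hz
  · have h1 : (N : ℤ) * z * m + Q * w * c = (Q : ℤ) * s0 := by
      linear_combination (z * m) * hNG - (Q : ℤ) * m * hz + (Q : ℤ) * hs1
    rw [h1]
    exact hsmall hs0 hs
  · have h1 : (N : ℤ) * z * n + Q * w * d = (Q : ℤ) * t0 := by
      linear_combination (z * n) * hNG - (Q : ℤ) * n * hz + (Q : ℤ) * ht1
    rw [h1]
    exact hsmall ht0 ht

/-- An Atkin-Lehner matrix with first column proportional to `(m, c)`. -/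
theorem exists_al_cusp {N : ℕ} (hN : 1 ≤ N) (hsq : Squarefree N) {m c : ℤ} (h : IsCoprime m c) :
    ∃ Q : ℕ, Q ∣ N ∧ ∃ y z w : ℤ, (Q : ℤ) * m * w - ((N / Q : ℕ) : ℤ) * y * z = 1 ∧
      (N : ℤ) * z = Q * c := by
  set G : ℕ := Int.gcd N c with hG
  have hG0 : 0 < G := by
    rw [hG, Int.gcd_pos_iff]
    left
    exact_mod_cast (by omega : N ≠ 0)
  obtain ⟨Q, hQ⟩ : G ∣ N := by
    have : (G : ℤ) ∣ (N : ℤ) := Int.gcd_dvd_left _ _
    exact_mod_cast this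
  obtain ⟨z, hz⟩ : (G : ℤ) ∣ c := Int.gcd_dvd_right _ _
  have hQc : IsCoprime (Q : ℤ) c := isCoprime_of_gcd hsq hQ
  have hNG : (N : ℤ) = (G : ℤ) * Q := by exact_mod_cast hQ
  have hQ0 : 0 < Q := by
    rcases Nat.eq_zero_or_pos Q with h0 | h0
    · rw [h0, mul_zero] at hQ
      omega
    · exact h0
  obtain ⟨w, y, hwy⟩ := hQc.mul_left h
  have hdiv : N / Q = G := by
    rw [hQ]
    exact Nat.mul_div_cancel _ hQ0
  refine ⟨Q, Dvd.intro_left G hQ.symm, -y, z, w, ?_, ?_⟩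
  · rw [hdiv]
    linear_combination hwy - y * hz
  · linear_combination z * hNG - (Q : ℤ) * hz

end Pool.Agent.K4H24.SZ
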