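import Pool.Agent.K4H24.SZ.Grp
import Pool.Agent.K4H24.SZ.Arith

/-!
# Forms of squarefree level which are eigenfunctions of the Atkin-Lehner involutions
-/

open Complex Filter Topology MatrixGroups

namespace Pool.Agent.K4H24.SZ

open Pool.Agent.TH133.SH

variable {a : ℕ → ℤ} {N : ℕ}

/-- `f` is an eigenfunction of all Atkin-Lehner involutions `W_Q`, `Q ∣ N` (`N` is squarefree): there is
a sign `ε` with `f(g τ) = ε (N z τ + Q w)² / Q f(τ)` for all matrices `g = (Q x, y; N z, Q w)` of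
determinant `Q`. -/
def IsAtkinLehner (N : ℕ) (a : ℕ → ℤ) : Prop :=
  ∀ Q : ℕ, Q ∣ N → ∃ ε : ℝ, (ε = 1 ∨ ε = -1) ∧ ∀ τ : ℂ, 0 < τ.im → ∀ x y z w : ℤ,
    (Q : ℤ) * x * w - ((N / Q : ℕ) : ℤ) * y * z = 1 →
      fser a (((Q : ℂ) * x * τ + y) / ((N : ℂ) * z * τ + Q * w)) =
        (ε : ℂ) * ((N : ℂ) * z * τ + Q * w) ^ 2 / Q * fser a τ

lemma al_tr (hN : 1 ≤ N) (ha : IsForm N a) (hal : IsAtkinLehner N a) {Q : ℕ} (hQ : Q ∣ N)
    {x y z w : ℤ} (h : (Q : ℤ) * x * w - ((N / Q : ℕ) : ℤ) * y * z = 1) :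
    ∃ ε : ℝ, ∃ C : ℂ, Tr a (Real.sqrt Q * x) (y / Real.sqrt Q) (N * z / Real.sqrt Q)
      (Real.sqrt Q * w) ε C := by
  obtain ⟨ε, hε, hf⟩ := hal Q hQ
  have hQ0 : 0 < Q := Nat.pos_of_dvd_of_pos hQ (by omega)
  have hQr : (0 : ℝ) < Q := by exact_mod_cast hQ0
  set k : ℝ := Real.sqrt Q with hk
  have hk0 : 0 < k := Real.sqrt_pos.2 hQr
  have hkk : k * k = Q := Real.mul_self_sqrt hQr.le
  obtain ⟨G, hG⟩ : ∃ G : ℕ, N / Q = G := ⟨_, rfl⟩
  have hNQ : (N : ℝ) = (G : ℝ) * Q := by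
    rw [← hG, ← Nat.cast_mul, Nat.div_mul_cancel hQ]
  have hR : (Q : ℝ) * x * w - (G : ℝ) * y * z = 1 := by
    rw [hG] at h
    exact_mod_cast h
  have hdet : (k * x) * (k * w) - (y / k) * (N * z / k) = 1 := by
    have e1 : (y / k) * (N * z / k) = (G : ℝ) * y * z := by
      rw [hNQ, div_mul_div_comm, hkk]
      field_simp
    rw [e1]
    linear_combination x * w * hkk + hR
  have hkC : (k : ℂ) ≠ 0 := by exact_mod_cast hk0.ne'
  have hkkC : (k : ℂ) * k = Q := by exact_mod_cast congrArg (fun t : ℝ => (t : ℂ)) hkk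
  have hQC : (Q : ℂ) ≠ 0 := by exact_mod_cast hQ0.ne'
  have hden : ∀ τ : ℂ, ((N * z / k : ℝ) : ℂ) * τ + ((k * w : ℝ) : ℂ) =
      ((N : ℂ) * z * τ + Q * w) / k := by
    intro τ
    rw [eq_div_iff hkC]
    push_cast
    rw [← hkkC]
    field_simp
  have hnum : ∀ τ : ℂ, ((k * x : ℝ) : ℂ) * τ + ((y / k : ℝ) : ℂ) =
      ((Q : ℂ) * x * τ + y) / k := by
    intro τ
    rw [eq_div_iff hkC]
    push_cast
    rw [← hkkC]
    field_simp
  have hmob : ∀ τ : ℂ, mob (k * x) (y / k) (N * z / k) (k * w) τ =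
      ((Q : ℂ) * x * τ + y) / ((N : ℂ) * z * τ + Q * w) := by
    intro τ
    unfold mob
    rw [hden, hnum, div_div_div_cancel_right₀ hkC]
  set u : Set ℂ := {w : ℂ | 0 < w.im} with hu
  have huc : Convex ℝ u := convex_halfSpace_im_gt 0
  refine ⟨ε, Fser a (mob (k * x) (y / k) (N * z / k) (k * w) Complex.I) - (ε : ℂ) * Fser a Complex.I,
    hdet, hε, fun τ hτ => ?_⟩
  have h1 := huc.norm_image_sub_le_of_norm_hasDerivWithin_le
    (f := fun z' => Fser a (mob (k * x) (y / k) (N * z / k) (k * w) z') - (ε : ℂ) * Fser a z')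
    (f' := fun τ => 0) (C := 0)
    (fun v hv => ?_)
    (fun v hv => by simp) (x := Complex.I) (y := τ)
    (by change 0 < Complex.I.im; simp) (by exact hτ)
  · rw [zero_mul] at h1
    have h2 := norm_le_zero_iff.1 h1
    linear_combination h2
  · have hv0 : 0 < v.im := hv
    have h2 := (hasDerivAt_comp ha hdet hv0).sub
      ((hasDerivAt_Fser ha.zero ha.summable hv0).const_mul (ε : ℂ))
    refine (h2.congr_deriv ?_).hasDerivWithinAt
    have h4 := den_ne hdet hv0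
    rw [hmob, hf v hv0 x y z w h, hden]
    rw [hden] at h4
    generalize ((N : ℂ) * z * v + Q * w) = D at h4 ⊢
    have h5 : D ≠ 0 := by
      rintro rfl
      exact h4 (zero_div _)
    have hk2 : (k : ℂ) ^ 2 = Q := by rw [sq]; exact hkkC
    have e1 : (ε : ℂ) * D ^ 2 / Q * fser a v * (1 / (D / k) ^ 2) = ε * fser a v := by
      rw [div_pow, one_div_div, hk2]
      field_simp
    linear_combination (2 * (Real.pi : ℂ) * Complex.I) * e1

/-- The value of `F` at a cusp is given by a matrix. -/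
lemma exists_cusp (hN : 1 ≤ N) (hsq : Squarefree N) (ha : IsForm N a) (hal : IsAtkinLehner N a)
    {m c : ℤ} (h : IsCoprime m c) : ∃ w : ℂ, Cusp a m c w := by
  obtain ⟨Q, hQ, y, z, w, hdet, hz⟩ := exists_al_cusp hN hsq h
  obtain ⟨ε, C, ht⟩ := al_tr hN ha hal hQ hdet
  refine ⟨C, ?_, _, _, _, _, ε, ht, ?_⟩
  · by_contra hc
    push Not at hc
    have h1 : m = 0 := by exact_mod_cast hc.1
    have h2 : c = 0 := by exact_mod_cast hc.2
    rw [h1, h2] at h
    exact not_isCoprime_zero_zero h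
  · have hQ0 : 0 < Q := Nat.pos_of_dvd_of_pos hQ (by omega)
    have hQr : (0 : ℝ) < Q := by exact_mod_cast hQ0
    have hk0 : 0 < Real.sqrt Q := Real.sqrt_pos.2 hQr
    have hkk : Real.sqrt Q * Real.sqrt Q = Q := Real.mul_self_sqrt hQr.le
    have hzr : (N : ℝ) * z = Q * c := by exact_mod_cast hz
    rw [hzr]
    generalize Real.sqrt Q = k at hk0 hkk
    rw [← hkk]
    field_simp

/-- The difference of the values of `F` at two neighbours in the Farey graph is, up to the sign, the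
difference of the values at two cusps with denominators at most `√N`. -/
theorem symbol (hN : 1 ≤ N) (hsq : Squarefree N) (ha : IsForm N a) (hal : IsAtkinLehner N a)
    {m c n d : ℤ} (h : m * d - n * c = 1) : ∃ ε : ℝ, (ε = 1 ∨ ε = -1) ∧ ∃ U V U' V' : ℤ,
      V ^ 2 ≤ N ∧ V' ^ 2 ≤ N ∧
      Val a U V - Val a U' V' = (ε : ℂ) * (Val a m c - Val a n d) := by
  obtain ⟨Q, hQ, x, y, z, w, hdet, h1, h2⟩ := exists_al hN hsq h
  obtain ⟨ε, C, ht⟩ := al_tr hN ha hal hQ hdet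
  have hQ0 : 0 < Q := Nat.pos_of_dvd_of_pos hQ (by omega)
  have hQr : (0 : ℝ) < Q := by exact_mod_cast hQ0
  have hk0 : 0 < Real.sqrt Q := Real.sqrt_pos.2 hQr
  have hkk : Real.sqrt Q * Real.sqrt Q = Q := Real.mul_self_sqrt hQr.le
  have hc1 : IsCoprime m c := ⟨d, -n, by linear_combination h⟩
  have hc2 : IsCoprime n d := ⟨-c, m, by linear_combination h⟩
  obtain ⟨w1, hw1⟩ := exists_cusp hN hsq ha hal hc1
  obtain ⟨w2, hw2⟩ := exists_cusp hN hsq ha hal hc2
  have key : ∀ {m c : ℤ} {w1 : ℂ}, Cusp a m c w1 →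
      Val a ((Q * x * m + y * c : ℤ) : ℝ) ((N * z * m + Q * w * c : ℤ) : ℝ) = (ε : ℂ) * w1 + C := by
    intro m c w1 hw1
    have h3 := (hw1.smul ht).scale hk0.ne'
    have e1 : Real.sqrt Q * (Real.sqrt Q * x * m + y / Real.sqrt Q * c) =
        ((Q * x * m + y * c : ℤ) : ℝ) := by
      push_cast
      clear h3 ht
      generalize Real.sqrt Q = k at hk0 hkk
      rw [← hkk]
      field_simp
    have e2 : Real.sqrt Q * (N * z / Real.sqrt Q * m + Real.sqrt Q * w * c) =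
        ((N * z * m + Q * w * c : ℤ) : ℝ) := by
      push_cast
      clear h3 ht
      generalize Real.sqrt Q = k at hk0 hkk
      rw [← hkk]
      field_simp
    rw [e1, e2] at h3
    exact h3.val ha
  refine ⟨ε, ht.sgn, Q * x * m + y * c, N * z * m + Q * w * c, Q * x * n + y * d,
    N * z * n + Q * w * d, h1, h2, ?_⟩
  rw [key hw1, key hw2, hw1.val ha, hw2.val ha]
  ring

end Pool.Agent.K4H24.SZ
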