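import Pool.Agent.K4H24.SZ.MaxP

/-!
# The values at the cusps are bounded by the values of the Shimura map
-/

open Complex Filter Topology MatrixGroups

namespace Pool.Agent.K4H24.SZ

open Pool.Agent.TH133.SH

variable {a : ℕ → ℤ} {N : ℕ}

lemma exists_col {m c : ℤ} (h : IsCoprime m c) (hc : 0 < c) : ∃ n d : ℤ,
    m * d - n * c = 1 ∧ 0 ≤ d ∧ d ≤ c := by
  obtain ⟨u, v, huv⟩ := h
  have h1 := Int.emod_nonneg u hc.ne'
  have h2 := Int.emod_lt_of_pos u hc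
  have h3 := Int.emod_add_mul_ediv u c
  exact ⟨-v - m * (u / c), u % c, by linear_combination huv + m * h3, h1, h2.le⟩

/-- Two cusps with the same `gcd(c, N)` are equivalent under `Γ₀(N)`, by a matrix with polynomially
bounded lower left entry. -/
lemma same_type (hN : 1 ≤ N) (hsq : Squarefree N) {m c m' c' : ℤ} (h : IsCoprime m c)
    (h' : IsCoprime m' c') (hc : 0 < c) (hc' : 0 < c') (hg : Int.gcd N c = Int.gcd N c') :
    ∃ γ : SL(2, ℤ), InG N γ ∧ γ 0 0 * m' + γ 0 1 * c' = m ∧ γ 1 0 * m' + γ 1 1 * c' = c ∧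
      |γ 1 0| ≤ 3 * N * (c * c') := by
  obtain ⟨n, d, hd, hd0, hd1⟩ := exists_col h hc
  obtain ⟨n', d', hd', hd0', hd1'⟩ := exists_col h' hc'
  have hN0 : (0 : ℤ) < N := by exact_mod_cast hN
  obtain ⟨Q, hQ⟩ : Int.gcd N c ∣ N := by
    have : ((Int.gcd N c : ℕ) : ℤ) ∣ (N : ℤ) := Int.gcd_dvd_left _ _
    exact_mod_cast this
  have hQc : IsCoprime (Q : ℤ) c := isCoprime_of_gcd hsq hQ
  have hQc' : IsCoprime (Q : ℤ) c' := isCoprime_of_gcd hsq (by rw [← hg]; exact hQ)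
  obtain ⟨u, v, huv⟩ := hQc.mul_right hQc'
  have hA1 : ((Int.gcd N c : ℕ) : ℤ) ∣ c := Int.gcd_dvd_right _ _
  have hA2 : ((Int.gcd N c : ℕ) : ℤ) ∣ c' := by rw [hg]; exact Int.gcd_dvd_right _ _
  set t : ℤ := c * d' - d * c' with ht
  have hAt : ((Int.gcd N c : ℕ) : ℤ) ∣ t := by
    rw [ht]
    exact dvd_sub (Dvd.dvd.mul_right hA1 _) (Dvd.dvd.mul_left hA2 _)
  have hNdvd : (N : ℤ) ∣ t - (v * t) * (c * c') := by
    have e1 : t - (v * t) * (c * c') = t * Q * u := by linear_combination (-t) * huv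
    have e2 : (N : ℤ) = ((Int.gcd N c : ℕ) : ℤ) * Q := by exact_mod_cast hQ
    rw [e1, e2]
    exact Dvd.dvd.mul_right (mul_dvd_mul_right hAt _) _
  set k : ℤ := (v * t) % N with hk
  have hk0 : 0 ≤ k := Int.emod_nonneg _ hN0.ne'
  have hk1 : k ≤ N := (Int.emod_lt_of_pos _ hN0).le
  have hk2 := Int.emod_add_mul_ediv (v * t) N
  rw [← hk] at hk2
  have hNdvd' : (N : ℤ) ∣ c * d' - (d + k * c) * c' := by
    have e1 : c * d' - (d + k * c) * c' =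
        (t - (v * t) * (c * c')) + (N : ℤ) * ((v * t / N) * (c * c')) := by
      rw [ht] at hk2 ⊢
      linear_combination (-(c * c')) * hk2
    rw [e1]
    exact dvd_add hNdvd (Dvd.intro _ rfl)
  have hdet : (m * d' - (n + k * m) * c') * (-(c * n') + (d + k * c) * m') -
      (-(m * n') + (n + k * m) * m') * (c * d' - (d + k * c) * c') = 1 := by
    linear_combination (m' * d' - n' * c') * hd + hd'
  refine ⟨mk _ _ _ _ hdet, hNdvd', ?_, ?_, ?_⟩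
  · change (m * d' - (n + k * m) * c') * m' + (-(m * n') + (n + k * m) * m') * c' = m
    linear_combination m * hd'
  · change (c * d' - (d + k * c) * c') * m' + (-(c * n') + (d + k * c) * m') * c' = c
    linear_combination c * hd'
  · change |c * d' - (d + k * c) * c'| ≤ 3 * N * (c * c')
    have h1 : 0 < c * c' := by positivity
    have h2 : c * d' ≤ c * c' := by gcongr
    have h3 : 0 ≤ c * d' := by positivity
    have h4 : d * c' ≤ c * c' := by gcongr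
    have h5 : 0 ≤ d * c' := by positivity
    have h6 : k * (c * c') ≤ N * (c * c') := by gcongr
    have h7 : 0 ≤ k * (c * c') := by positivity
    have h8 : c * c' ≤ N * (c * c') := by nlinarith
    rw [abs_le]
    constructor <;> nlinarith

lemma val_smul (hN : 1 ≤ N) (hsq : Squarefree N) (ha : IsForm N a) (hal : IsAtkinLehner N a)
    {m c m' c' : ℤ} (h' : IsCoprime m' c') {γ : SL(2, ℤ)} (hγ : InG N γ)
    (h1 : γ 0 0 * m' + γ 0 1 * c' = m) (h2 : γ 1 0 * m' + γ 1 1 * c' = c) :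
    Val a m c = Val a m' c' + Hs a γ := by
  obtain ⟨w, hw⟩ := exists_cusp hN hsq ha hal h'
  have ht : Tr a ((γ 0 0 : ℤ) : ℝ) ((γ 0 1 : ℤ) : ℝ) ((γ 1 0 : ℤ) : ℝ) ((γ 1 1 : ℤ) : ℝ) 1 (Hs a γ) := by
    refine ⟨det_real γ, Or.inl rfl, fun τ hτ => ?_⟩
    have h3 := diff_eq ha hγ hτ
    rw [Complex.ofReal_one, one_mul]
    change Fser a (act γ τ) = _
    linear_combination h3
  have h3 := (hw.smul ht).val ha
  rw [hw.val ha, ← h1, ← h2]
  push_cast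
  rw [h3]
  push_cast
  ring

/-- The cusp `u / v`, where `u`, `v` need not be coprime. -/
lemma val_same (hN : 1 ≤ N) (hsq : Squarefree N) (ha : IsForm N a) (hal : IsAtkinLehner N a)
    {m c u v : ℤ} (h : IsCoprime m c) (hc : 0 < c) (hv : 0 < v) {ℓ : ℕ} (hℓ : IsCoprime (ℓ : ℤ) (N : ℤ))
    (hg : ((Int.gcd u v : ℕ) : ℤ) ∣ (ℓ : ℤ)) (hgN : Int.gcd N c = Int.gcd N v) :
    Per a ((u : ℝ) / v) (Val a u v) ∧
    ∃ γ : SL(2, ℤ), InG N γ ∧ |γ 1 0| ≤ 3 * N * (c * v) ∧ Val a m c = Val a u v + Hs a γ := by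
  obtain ⟨m', hm'⟩ : ((Int.gcd u v : ℕ) : ℤ) ∣ u := Int.gcd_dvd_left _ _
  obtain ⟨c', hc'⟩ : ((Int.gcd u v : ℕ) : ℤ) ∣ v := Int.gcd_dvd_right _ _
  have hg0 : 0 < Int.gcd u v := Int.gcd_pos_of_ne_zero_right _ hv.ne'
  have hbez : ((Int.gcd u v : ℕ) : ℤ) = u * Int.gcdA u v + v * Int.gcdB u v := Int.gcd_eq_gcd_ab u v
  have hg0' : (0 : ℤ) < ((Int.gcd u v : ℕ) : ℤ) := by exact_mod_cast hg0
  have hvr : (v : ℝ) ≠ 0 := by exact_mod_cast hv.ne'
  set g : ℤ := ((Int.gcd u v : ℕ) : ℤ) with hgdef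
  have hcop : IsCoprime m' c' := by
    refine ⟨Int.gcdA u v, Int.gcdB u v, ?_⟩
    have h1 : g * (Int.gcdA u v * m' + Int.gcdB u v * c') = g * 1 := by
      rw [mul_one]
      linear_combination -hbez - (Int.gcdA u v) * hm' - (Int.gcdB u v) * hc'
    exact mul_left_cancel₀ hg0'.ne' h1
  have hc'0 : 0 < c' := by
    by_contra hcon
    push Not at hcon
    nlinarith
  have hgN' : IsCoprime g (N : ℤ) := hℓ.of_isCoprime_of_dvd_left hg
  have hgcd : Int.gcd N v = Int.gcd N c' := by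
    rw [hc']
    apply Nat.dvd_antisymm
    · apply Int.dvd_gcd (Int.gcd_dvd_left _ _)
      have h2 : ((Int.gcd (N : ℤ) (g * c') : ℕ) : ℤ) ∣ g * c' := Int.gcd_dvd_right _ _
      have h3 : ((Int.gcd (N : ℤ) (g * c') : ℕ) : ℤ) ∣ (N : ℤ) := Int.gcd_dvd_left _ _
      exact (hgN'.symm.of_isCoprime_of_dvd_left h3).dvd_of_dvd_mul_left h2
    · exact Int.dvd_gcd (Int.gcd_dvd_left _ _) ((Int.gcd_dvd_right _ _).mul_left _)
  obtain ⟨γ, hγ, h1, h2, h3⟩ := same_type hN hsq h hcop hc hc'0 (by rw [hgN, hgcd])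
  obtain ⟨w, hw⟩ := exists_cusp hN hsq ha hal hcop
  have hsc := hw.scale (k := (g : ℝ)) (by exact_mod_cast hg0'.ne')
  have e1 : ((g : ℝ) * m') = (u : ℝ) := by exact_mod_cast (congrArg (fun x : ℤ => (x : ℝ)) hm').symm
  have e2 : ((g : ℝ) * c') = (v : ℝ) := by exact_mod_cast (congrArg (fun x : ℤ => (x : ℝ)) hc').symm
  rw [e1, e2] at hsc
  have hval : Val a u v = w := hsc.val ha
  refine ⟨by rw [hval]; exact hsc.per ha hvr, γ, hγ, h3.trans ?_, ?_⟩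
  · have h4 : c' ≤ v := by nlinarith
    gcongr
  · rw [val_smul hN hsq ha hal hcop hγ h1 h2, hw.val ha, hval]

/-- **The converse bound.** -/
theorem conv (hN : 1 ≤ N) (hsq : Squarefree N) (ha : IsNewform N a) (hal : IsAtkinLehner N a)
    (hne : ∃ τ : ℂ, 0 < τ.im ∧ fser a τ ≠ 0) {L : ℂ →ₗ[ℝ] ℝ} {Y : ℝ} {m c : ℤ} (h : IsCoprime m c)
    (hc : 0 < c)
    (hY : ∀ γ : SL(2, ℤ), InG N γ → |γ 1 0| ≤ 3 * N * (c * ((N + 1) * c)) → |L (Hs a γ)| ≤ Y) :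
    |L (Val a m c)| ≤ (N + 2) * Y := by
  have hf := ha.toIsForm
  obtain ⟨ℓ, hℓ, hℓd⟩ := Nat.exists_prime_and_dvd (show N + 1 ≠ 1 by omega)
  have hℓle : ℓ ≤ N + 1 := Nat.le_of_dvd (by omega) hℓd
  have hℓN : ¬ ℓ ∣ N := by
    intro hd
    have h1 : ℓ ∣ 1 := (Nat.dvd_add_right hd).1 hℓd
    exact hℓ.one_lt.ne' (Nat.dvd_one.1 h1)
  have hℓcop : IsCoprime (ℓ : ℤ) (N : ℤ) :=
    Nat.isCoprime_iff_coprime.2 ((Nat.Prime.coprime_iff_not_dvd hℓ).2 hℓN)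
  have hℓ0 : (0 : ℤ) < ℓ := by exact_mod_cast hℓ.pos
  have hℓr : (0 : ℝ) < ℓ := by exact_mod_cast hℓ.pos
  have hcr : (0 : ℝ) < c := by exact_mod_cast hc
  have hv : 0 < (ℓ : ℤ) * c := by positivity
  have hlt := hecke_lt hN hsq ha hal hℓ hℓN hne
  -- the cusps
  have hA : ∀ j : ℕ, Per a (((m + j * c : ℤ) : ℝ) / ((ℓ * c : ℤ) : ℝ))
      (Val a ((m + j * c : ℤ) : ℝ) ((ℓ * c : ℤ) : ℝ)) ∧
      |L (Val a m c) - L (Val a ((m + j * c : ℤ) : ℝ) ((ℓ * c : ℤ) : ℝ))| ≤ Y := by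
    intro j
    have hg : ((Int.gcd (m + j * c) (ℓ * c) : ℕ) : ℤ) ∣ (ℓ : ℤ) := by
      have h1 : ((Int.gcd (m + j * c) (ℓ * c) : ℕ) : ℤ) ∣ m + j * c := Int.gcd_dvd_left _ _
      have h2 : ((Int.gcd (m + j * c) (ℓ * c) : ℕ) : ℤ) ∣ ℓ * c := Int.gcd_dvd_right _ _
      have h3 : IsCoprime (m + j * c) c := by
        rw [mul_comm (j : ℤ) c]
        exact (IsCoprime.add_mul_left_left_iff).2 h
      exact (h3.of_isCoprime_of_dvd_left h1).dvd_of_dvd_mul_right h2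
    have hgN : Int.gcd N c = Int.gcd N (ℓ * c) := by
      apply Nat.dvd_antisymm
      · exact Int.dvd_gcd (Int.gcd_dvd_left _ _) ((Int.gcd_dvd_right _ _).mul_left _)
      · apply Int.dvd_gcd (Int.gcd_dvd_left _ _)
        have h2 : ((Int.gcd (N : ℤ) (ℓ * c) : ℕ) : ℤ) ∣ ℓ * c := Int.gcd_dvd_right _ _
        have h3 : ((Int.gcd (N : ℤ) (ℓ * c) : ℕ) : ℤ) ∣ (N : ℤ) := Int.gcd_dvd_left _ _
        exact (hℓcop.symm.of_isCoprime_of_dvd_left h3).dvd_of_dvd_mul_left h2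
    obtain ⟨h1, γ, hγ, h2, h3⟩ := val_same hN hsq hf hal h hc hv hℓcop hg hgN
    refine ⟨h1, ?_⟩
    rw [h3, ← map_sub, add_sub_cancel_left]
    apply hY γ hγ (h2.trans _)
    have : (ℓ : ℤ) ≤ N + 1 := by exact_mod_cast hℓle
    gcongr
  have hB : Per a (((ℓ * m : ℤ) : ℝ) / (c : ℝ)) (Val a ((ℓ * m : ℤ) : ℝ) (c : ℝ)) ∧
      |L (Val a m c) - L (Val a ((ℓ * m : ℤ) : ℝ) (c : ℝ))| ≤ Y := by
    have hg : ((Int.gcd (ℓ * m) c : ℕ) : ℤ) ∣ (ℓ : ℤ) := by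
      have h1 : ((Int.gcd (ℓ * m) c : ℕ) : ℤ) ∣ ℓ * m := Int.gcd_dvd_left _ _
      have h2 : ((Int.gcd (ℓ * m) c : ℕ) : ℤ) ∣ c := Int.gcd_dvd_right _ _
      exact (h.symm.of_isCoprime_of_dvd_left h2).dvd_of_dvd_mul_right h1
    obtain ⟨h1, γ, hγ, h2, h3⟩ := val_same hN hsq hf hal h hc hc hℓcop hg rfl
    refine ⟨h1, ?_⟩
    rw [h3, ← map_sub, add_sub_cancel_left]
    apply hY γ hγ (h2.trans _)
    have : c ≤ (N + 1) * c := by nlinarith [(Int.natCast_nonneg N)]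
    gcongr
  have hP : Per a ((m : ℝ) / c) (Val a m c) := by
    obtain ⟨w, hw⟩ := exists_cusp hN hsq hf hal h
    rw [hw.val hf]
    exact hw.per hf hcr.ne'
  -- the limits
  have hscale : ∀ t : ℝ, 0 < t → Tendsto (fun y : ℝ => t * y) (𝓝[>] 0) (𝓝[>] 0) := by
    intro t ht
    rw [tendsto_nhdsWithin_iff]
    constructor
    · have h1 : Tendsto (fun y : ℝ => t * y) (𝓝 0) (𝓝 (t * 0)) :=
        (continuous_const.mul continuous_id).tendsto 0
      rw [mul_zero] at h1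
      exact h1.mono_left nhdsWithin_le_nhds
    · filter_upwards [self_mem_nhdsWithin] with y hy
      exact mul_pos ht hy
  have hlim1 : Tendsto (fun y : ℝ => (a ℓ : ℂ) * Fser a (((m / c : ℝ) : ℂ) + (y : ℂ) * Complex.I))
      (𝓝[>] 0) (𝓝 ((a ℓ : ℂ) * Val a m c)) := Tendsto.const_mul _ hP
  have hlim2 : Tendsto (fun y : ℝ => ∑ j ∈ Finset.range ℓ,
      Fser a (((((m / c : ℝ) : ℂ) + (y : ℂ) * Complex.I) + j) / ℓ) +
        Fser a ((ℓ : ℂ) * (((m / c : ℝ) : ℂ) + (y : ℂ) * Complex.I))) (𝓝[>] 0)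
      (𝓝 (∑ j ∈ Finset.range ℓ, Val a ((m + j * c : ℤ) : ℝ) ((ℓ * c : ℤ) : ℝ) +
        Val a ((ℓ * m : ℤ) : ℝ) (c : ℝ))) := by
    apply Tendsto.add
    · apply tendsto_finsetSum
      intro j _
      have h1 := Tendsto.comp (hA j).1 (hscale (1 / ℓ) (by positivity))
      refine h1.congr (fun y => ?_)
      simp only [Function.comp]
      congr 1
      have hcC : (c : ℂ) ≠ 0 := by exact_mod_cast hc.ne'
      have hℓC : (ℓ : ℂ) ≠ 0 := by exact_mod_cast hℓ.ne_zero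
      push_cast
      field_simp
      ring
    · have h1 := Tendsto.comp hB.1 (hscale ℓ hℓr)
      refine h1.congr (fun y => ?_)
      simp only [Function.comp]
      congr 1
      have hcC : (c : ℂ) ≠ 0 := by exact_mod_cast hc.ne'
      push_cast
      field_simp
  have heq : (a ℓ : ℂ) * Val a m c = ∑ j ∈ Finset.range ℓ,
      Val a ((m + j * c : ℤ) : ℝ) ((ℓ * c : ℤ) : ℝ) + Val a ((ℓ * m : ℤ) : ℝ) (c : ℝ) := by
    refine tendsto_nhds_unique hlim1 (hlim2.congr' ?_)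
    filter_upwards [self_mem_nhdsWithin] with y hy
    rw [← hecke_F ha hℓ hℓN]
    rw [im_vert]
    exact hy
  -- the coordinates
  have hL := congrArg L heq
  have e1 : L ((a ℓ : ℂ) * Val a m c) = (a ℓ : ℝ) * L (Val a m c) := by
    have : (a ℓ : ℂ) * Val a m c = ((a ℓ : ℝ)) • Val a m c := by
      rw [Complex.real_smul]
      push_cast
      rfl
    rw [this, map_smul, smul_eq_mul]
  rw [e1, map_add, map_sum] at hL
  have hsum : ((ℓ : ℝ) + 1 - a ℓ) * L (Val a m c) =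
      ∑ j ∈ Finset.range ℓ, (L (Val a m c) - L (Val a ((m + j * c : ℤ) : ℝ) ((ℓ * c : ℤ) : ℝ))) +
        (L (Val a m c) - L (Val a ((ℓ * m : ℤ) : ℝ) (c : ℝ))) := by
    rw [Finset.sum_sub_distrib, Finset.sum_const, Finset.card_range, nsmul_eq_mul]
    linear_combination -hL
  have hbd : |((ℓ : ℝ) + 1 - a ℓ) * L (Val a m c)| ≤ (ℓ + 1) * Y := by
    rw [hsum]
    refine (abs_add_le _ _).trans ?_
    have h1 : |∑ j ∈ Finset.range ℓ,
        (L (Val a m c) - L (Val a ((m + j * c : ℤ) : ℝ) ((ℓ * c : ℤ) : ℝ)))| ≤ ℓ * Y := by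
      refine (Finset.abs_sum_le_sum_abs _ _).trans ?_
      have := Finset.sum_le_card_nsmul (Finset.range ℓ) (fun j : ℕ =>
        |L (Val a m c) - L (Val a ((m + j * c : ℤ) : ℝ) ((ℓ * c : ℤ) : ℝ))|) Y
        (fun j _ => (hA j).2)
      simpa using this
    have h2 := hB.2
    linarith
  have hint : (1 : ℝ) ≤ |(ℓ : ℝ) + 1 - a ℓ| := by
    have h1 : (a ℓ : ℝ) < ℓ + 1 := (le_abs_self _).trans_lt hlt
    have h2 : a ℓ < (ℓ : ℤ) + 1 := by exact_mod_cast h1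
    have h3 : a ℓ ≤ (ℓ : ℤ) := by omega
    have h4 : (a ℓ : ℝ) ≤ ℓ := by exact_mod_cast h3
    rw [abs_of_nonneg (by linarith)]
    linarith
  have hY0 : 0 ≤ Y := (abs_nonneg _).trans hB.2
  rw [abs_mul] at hbd
  have h5 : |L (Val a m c)| ≤ (ℓ + 1) * Y := by
    nlinarith [abs_nonneg (L (Val a m c))]
  have h6 : (ℓ : ℝ) + 1 ≤ N + 2 := by
    have : (ℓ : ℝ) ≤ N + 1 := by exact_mod_cast hℓle
    linarith
  calc |L (Val a m c)| ≤ (ℓ + 1) * Y := h5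
    _ ≤ (N + 2) * Y := by gcongr

end Pool.Agent.K4H24.SZ
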