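import Pool.Agent.TH133.SH.GenMain

/-!
# The primitive of a cusp form at the cusps
-/

open Complex Filter Topology

namespace Pool.Agent.K4H24.SZ

open Pool.Agent.TH133.SH

variable {a : ℕ → ℤ} {N : ℕ}

/-- The real matrix `g` with rows `(p, q)`, `(r, s)` has determinant one and
`F(g τ) = ε F(τ) + C`. -/
structure Tr (a : ℕ → ℤ) (p q r s ε : ℝ) (C : ℂ) : Prop where
  det : p * s - q * r = 1
  sgn : ε = 1 ∨ ε = -1
  eq : ∀ τ : ℂ, 0 < τ.im → Fser a (mob p q r s τ) = (ε : ℂ) * Fser a τ + C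

lemma Tr.mul {p q r s ε p' q' r' s' ε' : ℝ} {C C' : ℂ} (h : Tr a p q r s ε C)
    (h' : Tr a p' q' r' s' ε' C') :
    Tr a (p * p' + q * r') (p * q' + q * s') (r * p' + s * r') (r * q' + s * s') (ε * ε')
      ((ε : ℂ) * C' + C) where
  det := by linear_combination (p' * s' - q' * r') * h.det + h'.det
  sgn := by
    rcases h.sgn with h1 | h1 <;> rcases h'.sgn with h2 | h2 <;> rw [h1, h2] <;> norm_num
  eq := by
    intro τ hτ
    rw [← mob_mul h.det h'.det hτ, h.eq _ (im_mob_pos h'.det hτ), h'.eq τ hτ]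
    push_cast
    ring

lemma decay (ha : IsForm N a) : ∃ K : ℝ, 0 ≤ K ∧ ∀ τ : ℂ, 1 ≤ τ.im → ‖Fser a τ‖ ≤ K / τ.im := by
  have h1 := (ha.summable Complex.I (by simp)).norm
  refine ⟨∑' k : ℕ, |(a k : ℝ)| * Real.exp (-(2 * Real.pi * k)), tsum_nonneg (fun k => by positivity),
    fun τ hτ => ?_⟩
  have hs : Summable (fun k : ℕ => |(a k : ℝ)| * Real.exp (-(2 * Real.pi * k))) := by
    refine h1.congr (fun k => ?_)
    rw [norm_term]
    simp
  have hτ0 : 0 < τ.im := by linarith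
  have hexp : Real.exp (-(2 * Real.pi * (τ.im - 1))) ≤ 1 / τ.im := by
    rw [Real.exp_neg, ← one_div]
    apply one_div_le_one_div_of_le hτ0
    have h2 := Real.add_one_le_exp (2 * Real.pi * (τ.im - 1))
    have h3 := Real.pi_gt_three
    nlinarith
  have hterm : ∀ k : ℕ, ‖(a k : ℂ) / (k : ℂ) * Complex.exp (2 * (Real.pi : ℂ) * Complex.I * (k : ℂ) * τ)‖
      ≤ (|(a k : ℝ)| * Real.exp (-(2 * Real.pi * k))) * (1 / τ.im) := by
    intro k
    rcases Nat.eq_zero_or_pos k with rfl | hk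
    · simp [ha.zero]
    · have hk1 : (1 : ℝ) ≤ k := by exact_mod_cast hk
      have e1 : ‖(a k : ℂ) / (k : ℂ) * Complex.exp (2 * (Real.pi : ℂ) * Complex.I * (k : ℂ) * τ)‖ =
          ‖(a k : ℂ) * Complex.exp (2 * (Real.pi : ℂ) * Complex.I * (k : ℂ) * τ)‖ / k := by
        rw [norm_mul, norm_mul, norm_div, Complex.norm_natCast]
        ring
      rw [e1, norm_term]
      have h4 : Real.exp (-(2 * Real.pi * k * τ.im)) ≤
          Real.exp (-(2 * Real.pi * k)) * Real.exp (-(2 * Real.pi * (τ.im - 1))) := by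
        rw [← Real.exp_add]
        apply Real.exp_le_exp.2
        have h5 : 0 ≤ 2 * Real.pi * (((k : ℝ) - 1) * (τ.im - 1)) := by
          have := Real.pi_pos
          have h6 : 0 ≤ (k : ℝ) - 1 := by linarith
          have h7 : 0 ≤ τ.im - 1 := by linarith
          positivity
        nlinarith
      calc |(a k : ℝ)| * Real.exp (-(2 * Real.pi * k * τ.im)) / k
          ≤ |(a k : ℝ)| * Real.exp (-(2 * Real.pi * k * τ.im)) := by
            apply div_le_self (by positivity) hk1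
        _ ≤ |(a k : ℝ)| * (Real.exp (-(2 * Real.pi * k)) * Real.exp (-(2 * Real.pi * (τ.im - 1)))) := by
            gcongr
        _ ≤ |(a k : ℝ)| * (Real.exp (-(2 * Real.pi * k)) * (1 / τ.im)) := by gcongr
        _ = _ := by ring
  have h8 := tsum_of_norm_bounded (hs.mul_right (1 / τ.im)).hasSum hterm
  rw [tsum_mul_right] at h8
  unfold Fser
  rw [div_eq_mul_one_div]
  exact h8

lemma im_vert (x t : ℝ) : ((x : ℂ) + (t : ℂ) * Complex.I).im = t := by simp

/-- The value at the rational point `x` of the primitive `F`, as a vertical limit. -/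
def Per (a : ℕ → ℤ) (x : ℝ) (w : ℂ) : Prop :=
  Tendsto (fun y : ℝ => Fser a ((x : ℂ) + (y : ℂ) * Complex.I)) (𝓝[>] 0) (𝓝 w)

lemma mob_vertical {p q r s : ℝ} (h : p * s - q * r = 1) (hr : r ≠ 0) {y : ℝ} (hy : 0 < y) :
    mob p q r s (((-s / r : ℝ) : ℂ) + ((1 / (r ^ 2 * y) : ℝ) : ℂ) * Complex.I) =
      ((p / r : ℝ) : ℂ) + (y : ℂ) * Complex.I := by
  have hrC : (r : ℂ) ≠ 0 := by exact_mod_cast hr
  have hyC : (y : ℂ) ≠ 0 := by exact_mod_cast hy.ne'
  have h3 : ((p : ℂ) * s - q * r) = 1 := by exact_mod_cast congrArg (fun x : ℝ => (x : ℂ)) h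
  unfold mob
  have hden : (r : ℂ) * (((-s / r : ℝ) : ℂ) + ((1 / (r ^ 2 * y) : ℝ) : ℂ) * Complex.I) + (s : ℂ) =
      Complex.I / ((r : ℂ) * y) := by
    push_cast
    field_simp
    ring
  have hden0 : Complex.I / ((r : ℂ) * y) ≠ 0 :=
    div_ne_zero Complex.I_ne_zero (mul_ne_zero hrC hyC)
  rw [hden, div_eq_iff hden0]
  push_cast
  field_simp
  linear_combination (-(r : ℂ) * y) * h3 - (r : ℂ) * y * Complex.I_sq

lemma Tr.per (ha : IsForm N a) {p q r s ε : ℝ} {C : ℂ} (h : Tr a p q r s ε C) (hr : r ≠ 0) :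
    Per a (p / r) C := by
  obtain ⟨K, hK, hd⟩ := decay ha
  have hr2 : 0 < r ^ 2 := by positivity
  have hbd : ∀ y : ℝ, 0 < y → y ≤ 1 / r ^ 2 →
      ‖Fser a (((p / r : ℝ) : ℂ) + (y : ℂ) * Complex.I) - C‖ ≤ K * r ^ 2 * y := by
    intro y hy hy1
    rw [← mob_vertical h.det hr hy]
    have him : (((-s / r : ℝ) : ℂ) + ((1 / (r ^ 2 * y) : ℝ) : ℂ) * Complex.I).im =
        1 / (r ^ 2 * y) := im_vert _ _
    have hpos : 0 < 1 / (r ^ 2 * y) := by positivity
    rw [h.eq _ (by rw [him]; exact hpos), add_sub_cancel_right, norm_mul]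
    have hε : ‖(ε : ℂ)‖ = 1 := by
      rcases h.sgn with h1 | h1 <;> rw [h1] <;> simp
    rw [hε, one_mul]
    have h1 : 1 ≤ 1 / (r ^ 2 * y) := by
      rw [le_div_iff₀ (by positivity)]
      rw [le_div_iff₀ hr2] at hy1
      linarith
    refine (hd _ (by rw [him]; exact h1)).trans (le_of_eq ?_)
    rw [him]
    field_simp
  unfold Per
  rw [tendsto_iff_norm_sub_tendsto_zero]
  have hlim : Tendsto (fun y : ℝ => K * r ^ 2 * y) (𝓝[>] 0) (𝓝 0) := by
    have : Tendsto (fun y : ℝ => K * r ^ 2 * y) (𝓝 0) (𝓝 (K * r ^ 2 * 0)) :=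
      (continuous_const.mul continuous_id).tendsto 0
    rw [mul_zero] at this
    exact this.mono_left nhdsWithin_le_nhds
  refine squeeze_zero' (Eventually.of_forall fun y => norm_nonneg _) ?_ hlim
  filter_upwards [Ioc_mem_nhdsGT (show (0 : ℝ) < 1 / r ^ 2 by positivity)] with y hy
  exact hbd y hy.1 hy.2

lemma Tr.const_zero (ha : IsForm N a) {p q s ε : ℝ} {C : ℂ} (h : Tr a p q 0 s ε C) : C = 0 := by
  obtain ⟨K, hK, hd⟩ := decay ha
  have hps : p * s = 1 := by have := h.det; linarith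
  have hp : p ≠ 0 := fun h0 => by rw [h0] at hps; norm_num at hps
  have hp2 : 0 < p ^ 2 := by positivity
  have hε : ‖(ε : ℂ)‖ = 1 := by
    rcases h.sgn with h1 | h1 <;> rw [h1] <;> simp
  have hbd : ∀ t : ℝ, 1 ≤ t → 1 ≤ p ^ 2 * t → ‖C‖ ≤ K / (p ^ 2 * t) + K / t := by
    intro t ht ht2
    have him : ((t : ℂ) * Complex.I).im = t := by simp
    have ht0 : 0 < ((t : ℂ) * Complex.I).im := by rw [him]; linarith
    have h1 := h.eq _ ht0
    have h2 : (mob p q 0 s ((t : ℂ) * Complex.I)).im = p ^ 2 * t := by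
      rw [im_mob h.det ht0, him]
      simp only [Complex.ofReal_zero, zero_mul, zero_add, Complex.norm_real, Real.norm_eq_abs, sq_abs]
      have hs : s ≠ 0 := fun h0 => by rw [h0] at hps; norm_num at hps
      field_simp
      nlinarith [hps]
    have h3 := hd _ (show 1 ≤ (mob p q 0 s ((t : ℂ) * Complex.I)).im by rw [h2]; exact ht2)
    have h4 := hd _ (show 1 ≤ ((t : ℂ) * Complex.I).im by rw [him]; exact ht)
    rw [h2] at h3
    rw [him] at h4
    have h5 : C = Fser a (mob p q 0 s ((t : ℂ) * Complex.I)) - (ε : ℂ) * Fser a ((t : ℂ) * Complex.I) := by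
      rw [h1]; ring
    calc ‖C‖ = ‖Fser a (mob p q 0 s ((t : ℂ) * Complex.I)) - (ε : ℂ) * Fser a ((t : ℂ) * Complex.I)‖ := by
          rw [← h5]
      _ ≤ ‖Fser a (mob p q 0 s ((t : ℂ) * Complex.I))‖ + ‖(ε : ℂ) * Fser a ((t : ℂ) * Complex.I)‖ :=
          norm_sub_le _ _
      _ ≤ K / (p ^ 2 * t) + K / t := by
          rw [norm_mul, hε, one_mul]
          exact add_le_add h3 h4
  have hlim : Tendsto (fun t : ℝ => K / (p ^ 2 * t) + K / t) atTop (𝓝 (0 + 0)) := by
    apply Tendsto.add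
    · exact tendsto_const_nhds.div_atTop (tendsto_id.const_mul_atTop hp2)
    · exact tendsto_const_nhds.div_atTop tendsto_id
  rw [add_zero] at hlim
  have h6 : ‖C‖ ≤ 0 := by
    refine ge_of_tendsto hlim ?_
    filter_upwards [eventually_ge_atTop (1 : ℝ), eventually_ge_atTop (1 / p ^ 2)] with t ht ht2
    refine hbd t ht ?_
    rw [div_le_iff₀ hp2] at ht2
    linarith
  exact norm_le_zero_iff.1 h6

/-- The value of the primitive `F` at the cusp `u / v` (`∞` if `v = 0`). -/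
noncomputable def Val (a : ℕ → ℤ) (u v : ℝ) : ℂ :=
  if v = 0 then 0 else limUnder (𝓝[>] (0 : ℝ)) (fun y : ℝ => Fser a (((u / v : ℝ) : ℂ) + (y : ℂ) * Complex.I))

/-- `F(g τ) = ± F(τ) + w` for a real matrix `g` with first column proportional to `(u, v)`. -/
def Cusp (a : ℕ → ℤ) (u v : ℝ) (w : ℂ) : Prop :=
  (u ≠ 0 ∨ v ≠ 0) ∧ ∃ p q r s ε : ℝ, Tr a p q r s ε w ∧ p * v = r * u

lemma Cusp.per (ha : IsForm N a) {u v : ℝ} {w : ℂ} (h : Cusp a u v w) (hv : v ≠ 0) :
    Per a (u / v) w := by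
  obtain ⟨_, p, q, r, s, ε, ht, hpr⟩ := h
  have hr : r ≠ 0 := by
    intro h0
    rw [h0, zero_mul] at hpr
    have hp := (mul_eq_zero.1 hpr).resolve_right hv
    have := ht.det
    rw [hp, h0] at this
    norm_num at this
  have := ht.per ha hr
  have e1 : p / r = u / v := by
    rw [div_eq_div_iff hr hv]
    linarith
  rwa [e1] at this

lemma Cusp.val (ha : IsForm N a) {u v : ℝ} {w : ℂ} (h : Cusp a u v w) : Val a u v = w := by
  unfold Val
  split_ifs with hv
  · obtain ⟨huv, p, q, r, s, ε, ht, hpr⟩ := h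
    have hu : u ≠ 0 := by
      rcases huv with h1 | h1
      · exact h1
      · exact absurd hv h1
    rw [hv, mul_zero] at hpr
    have hr : r = 0 := (mul_eq_zero.1 hpr.symm).resolve_right hu
    rw [hr] at ht
    exact (ht.const_zero ha).symm
  · exact (h.per ha hv).limUnder_eq

lemma Cusp.smul {u v : ℝ} {w : ℂ} (h : Cusp a u v w) {p q r s ε : ℝ} {C : ℂ}
    (ht : Tr a p q r s ε C) : Cusp a (p * u + q * v) (r * u + s * v) ((ε : ℂ) * w + C) := by
  obtain ⟨huv, p', q', r', s', ε', ht', hpr⟩ := h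
  refine ⟨?_, _, _, _, _, _, ht.mul ht', ?_⟩
  · by_contra hc
    push Not at hc
    obtain ⟨h1, h2⟩ := hc
    have hu : u = 0 := by linear_combination s * h1 - q * h2 - u * ht.det
    have hv : v = 0 := by linear_combination p * h2 - r * h1 - v * ht.det
    rcases huv with h3 | h3
    · exact h3 hu
    · exact h3 hv
  · linear_combination (p * s - q * r) * hpr

lemma Cusp.scale {u v : ℝ} {w : ℂ} (h : Cusp a u v w) {k : ℝ} (hk : k ≠ 0) :
    Cusp a (k * u) (k * v) w := by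
  obtain ⟨huv, p, q, r, s, ε, ht, hpr⟩ := h
  refine ⟨?_, p, q, r, s, ε, ht, by linear_combination k * hpr⟩
  rcases huv with h1 | h1
  · exact Or.inl (mul_ne_zero hk h1)
  · exact Or.inr (mul_ne_zero hk h1)

end Pool.Agent.K4H24.SZ
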