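import Pool.Agent.K4H24.SZ.Ineq

/-!
# The Hecke relation
-/

open Complex Filter Topology MatrixGroups

namespace Pool.Agent.K4H24.SZ

open Pool.Agent.TH133.SH

variable {a : ℕ → ℤ} {N : ℕ}

lemma geom_exp {ℓ : ℕ} (hℓ : ℓ.Prime) (k : ℕ) :
    ∑ j ∈ Finset.range ℓ, Complex.exp (2 * (Real.pi : ℂ) * Complex.I * (k : ℂ) * ((j : ℂ) / ℓ)) =
      if ℓ ∣ k then (ℓ : ℂ) else 0 := by
  have hℓ0 : (ℓ : ℂ) ≠ 0 := by exact_mod_cast hℓ.ne_zero
  have hζ := Complex.isPrimitiveRoot_exp ℓ hℓ.ne_zero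
  set ζ : ℂ := Complex.exp (2 * Real.pi * Complex.I / ℓ) with hζdef
  have h1 : ∀ j ∈ Finset.range ℓ,
      Complex.exp (2 * (Real.pi : ℂ) * Complex.I * (k : ℂ) * ((j : ℂ) / ℓ)) = (ζ ^ k) ^ j := by
    intro j _
    rw [← pow_mul, hζdef, ← Complex.exp_nat_mul]
    congr 1
    push_cast
    field_simp
  rw [Finset.sum_congr rfl h1]
  split_ifs with hk
  · obtain ⟨m, rfl⟩ := hk
    rw [pow_mul, hζ.pow_eq_one, one_pow]
    simp
  · have hcop : Nat.Coprime k ℓ := by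
      rw [Nat.coprime_comm]
      exact (Nat.Prime.coprime_iff_not_dvd hℓ).2 hk
    exact (hζ.pow_of_coprime k hcop).geom_sum_eq_zero hℓ.one_lt

lemma summable_F (ha : IsForm N a) {τ : ℂ} (hτ : 0 < τ.im) :
    Summable (fun k : ℕ => (a k : ℂ) / (k : ℂ) *
      Complex.exp (2 * (Real.pi : ℂ) * Complex.I * (k : ℂ) * τ)) := by
  refine Summable.of_norm_bounded (ha.summable τ hτ).norm (fun k => ?_)
  rw [norm_mul, norm_mul, norm_div]
  gcongr
  rcases Nat.eq_zero_or_pos k with rfl | hk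
  · simp
  · apply div_le_self (norm_nonneg _)
    rw [Complex.norm_natCast]
    exact_mod_cast hk

lemma im_hecke {ℓ : ℕ} (hℓ : 0 < ℓ) (j : ℕ) {τ : ℂ} (hτ : 0 < τ.im) :
    0 < ((τ + j) / ℓ).im := by
  have hℓ' : (0 : ℝ) < ℓ := by exact_mod_cast hℓ
  rw [Complex.div_natCast_im]
  simp only [Complex.add_im, Complex.natCast_im, add_zero]
  positivity

lemma im_hecke' {ℓ : ℕ} (hℓ : 0 < ℓ) {τ : ℂ} (hτ : 0 < τ.im) : 0 < ((ℓ : ℂ) * τ).im := by
  have hℓ' : (0 : ℝ) < ℓ := by exact_mod_cast hℓ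
  simp only [Complex.mul_im, Complex.natCast_re, Complex.natCast_im, zero_mul, add_zero]
  positivity

theorem hecke_F (ha : IsNewform N a) {ℓ : ℕ} (hℓ : ℓ.Prime) (hN : ¬ ℓ ∣ N) {τ : ℂ}
    (hτ : 0 < τ.im) : (a ℓ : ℂ) * Fser a τ =
      ∑ j ∈ Finset.range ℓ, Fser a ((τ + j) / ℓ) + Fser a ((ℓ : ℂ) * τ) := by
  have hℓ0 : (ℓ : ℂ) ≠ 0 := by exact_mod_cast hℓ.ne_zero
  have hf := ha.toIsForm
  set E : ℕ → ℂ := fun k => Complex.exp (2 * (Real.pi : ℂ) * Complex.I * (k : ℂ) * τ) with hE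
  have hinj : Function.Injective (fun m : ℕ => ℓ * m) := fun x y hxy =>
    Nat.eq_of_mul_eq_mul_left hℓ.pos hxy
  have hτℓ := im_hecke hℓ.pos 0 hτ
  -- the first sum
  have h1 : ∑ j ∈ Finset.range ℓ, Fser a ((τ + j) / ℓ) =
      ∑' m : ℕ, (ℓ : ℂ) * ((a (ℓ * m) : ℂ) / ((ℓ * m : ℕ) : ℂ)) * E m := by
    unfold Fser
    rw [← Summable.tsum_finsetSum (fun j _ => summable_F hf (im_hecke hℓ.pos j hτ))]
    have e1 : ∀ k : ℕ, ∑ j ∈ Finset.range ℓ, (a k : ℂ) / (k : ℂ) *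
        Complex.exp (2 * (Real.pi : ℂ) * Complex.I * (k : ℂ) * ((τ + j) / ℓ)) =
        (a k : ℂ) / (k : ℂ) * Complex.exp (2 * (Real.pi : ℂ) * Complex.I * (k : ℂ) * (τ / ℓ)) *
          (if ℓ ∣ k then (ℓ : ℂ) else 0) := by
      intro k
      rw [← geom_exp hℓ k, Finset.mul_sum]
      refine Finset.sum_congr rfl (fun j _ => ?_)
      rw [mul_assoc ((a k : ℂ) / (k : ℂ)), ← Complex.exp_add]
      congr 2
      ring
    rw [tsum_congr e1, ← hinj.tsum_eq (f := fun k : ℕ => (a k : ℂ) / (k : ℂ) *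
      Complex.exp (2 * (Real.pi : ℂ) * Complex.I * (k : ℂ) * (τ / ℓ)) *
          (if ℓ ∣ k then (ℓ : ℂ) else 0))]
    · refine tsum_congr (fun m => ?_)
      rw [if_pos (Dvd.intro m rfl)]
      have e2 : (2 * (Real.pi : ℂ) * Complex.I * ((ℓ * m : ℕ) : ℂ) * (τ / ℓ)) =
          2 * (Real.pi : ℂ) * Complex.I * (m : ℂ) * τ := by
        push_cast
        field_simp
      rw [e2]
      ring
    · intro k hk
      rw [Function.mem_support] at hk
      by_contra hc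
      apply hk
      rw [if_neg (fun hd => hc ?_), mul_zero]
      obtain ⟨m, hm⟩ := hd
      exact ⟨m, hm.symm⟩
  have h2 : Fser a ((ℓ : ℂ) * τ) =
      ∑' n : ℕ, (if ℓ ∣ n then (a (n / ℓ) : ℂ) / ((n / ℓ : ℕ) : ℂ) else 0) * E n := by
    rw [← hinj.tsum_eq (f := fun n : ℕ =>
      (if ℓ ∣ n then (a (n / ℓ) : ℂ) / ((n / ℓ : ℕ) : ℂ) else 0) * E n)]
    · unfold Fser
      refine tsum_congr (fun m => ?_)
      rw [if_pos (Dvd.intro m rfl), Nat.mul_div_cancel_left m hℓ.pos, hE]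
      push_cast
      congr 2
      ring
    · intro k hk
      rw [Function.mem_support] at hk
      by_contra hc
      apply hk
      rw [if_neg (fun hd => hc ?_), zero_mul]
      obtain ⟨m, hm⟩ := hd
      exact ⟨m, hm.symm⟩
  have hs0 := summable_F hf hτ
  have hs2 : Summable (fun n : ℕ =>
      (if ℓ ∣ n then (a (n / ℓ) : ℂ) / ((n / ℓ : ℕ) : ℂ) else 0) * E n) := by
    rw [← hinj.summable_iff]
    · refine (summable_F hf (im_hecke' hℓ.pos hτ)).congr (fun m => ?_)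
      simp only [Function.comp]
      rw [if_pos (Dvd.intro m rfl), Nat.mul_div_cancel_left m hℓ.pos, hE]
      push_cast
      congr 2
      ring
    · intro k hk
      rw [if_neg (fun hd => hk ?_), zero_mul]
      obtain ⟨m, hm⟩ := hd
      exact ⟨m, hm.symm⟩
  have hcoef : ∀ n : ℕ, (ℓ : ℂ) * ((a (ℓ * n) : ℂ) / ((ℓ * n : ℕ) : ℂ)) +
      (if ℓ ∣ n then (a (n / ℓ) : ℂ) / ((n / ℓ : ℕ) : ℂ) else 0) = (a ℓ : ℂ) * ((a n : ℂ) / n) := by
    intro n
    rcases Nat.eq_zero_or_pos n with rfl | hn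
    · simp
    · have hn0 : (n : ℂ) ≠ 0 := by exact_mod_cast hn.ne'
      have h3 := ha.hecke ℓ hℓ hN n
      have h4 : (a (ℓ * n) : ℂ) + (if ℓ ∣ n then (ℓ : ℂ) * (a (n / ℓ) : ℂ) else 0) =
          (a ℓ : ℂ) * (a n : ℂ) := by
        have := congrArg (fun z : ℤ => (z : ℂ)) h3
        push_cast at this
        exact this
      by_cases hd : ℓ ∣ n
      · obtain ⟨m, rfl⟩ := hd
        rw [if_pos (Dvd.intro m rfl), Nat.mul_div_cancel_left m hℓ.pos] at h4 ⊢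
        push_cast at hn0 ⊢
        have hm0 : (m : ℂ) ≠ 0 := right_ne_zero_of_mul hn0
        field_simp
        linear_combination h4
      · rw [if_neg hd] at h4 ⊢
        push_cast
        field_simp
        linear_combination h4
  have hs1 : Summable (fun m : ℕ => (ℓ : ℂ) * ((a (ℓ * m) : ℂ) / ((ℓ * m : ℕ) : ℂ)) * E m) := by
    refine ((hs0.mul_left (a ℓ : ℂ)).sub hs2).congr (fun n => ?_)
    have h5 := hcoef n
    linear_combination (-(E n)) * h5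
  rw [h1, h2, ← hs1.tsum_add hs2]
  unfold Fser
  rw [← tsum_mul_left]
  refine tsum_congr (fun n => ?_)
  linear_combination (-(E n)) * hcoef n

end Pool.Agent.K4H24.SZ
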