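import Pool.Agent.K4H24.SZ.AL

/-!
# All values are bounded by the values at the cusps with denominators at most `√N`
-/

open Complex Filter Topology MatrixGroups

namespace Pool.Agent.K4H24.SZ

open Pool.Agent.TH133.SH

variable {a : ℕ → ℤ} {N : ℕ}

lemma Val_congr {u v u' v' : ℝ} (hv : v ≠ 0) (hv' : v' ≠ 0) (h : u / v = u' / v') :
    Val a u v = Val a u' v' := by
  unfold Val
  rw [if_neg hv, if_neg hv', h]

lemma Val_zero (u : ℝ) : Val a u 0 = 0 := by
  unfold Val
  rw [if_pos rfl]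

/-- The bound for the cusps with denominators at most `√N`. -/
def SmallVals (N : ℕ) (a : ℕ → ℤ) (L : ℂ →ₗ[ℝ] ℝ) (X : ℝ) : Prop :=
  ∀ m c : ℤ, IsCoprime m c → 0 < c → c ^ 2 ≤ N → |L (Val a m c)| ≤ X

variable {L : ℂ →ₗ[ℝ] ℝ} {X : ℝ}

lemma SmallVals.nonneg (hN : 1 ≤ N) (h : SmallVals N a L X) : 0 ≤ X :=
  (abs_nonneg _).trans (h 0 1 isCoprime_one_right one_pos (by simpa using (by exact_mod_cast hN)))

lemma SmallVals.int (hN : 1 ≤ N) (h : SmallVals N a L X) {U V : ℤ} (hV : V ^ 2 ≤ N) :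
    |L (Val a U V)| ≤ X := by
  by_cases hV0 : V = 0
  · rw [hV0, Int.cast_zero, Val_zero, map_zero, abs_zero]
    exact h.nonneg hN
  · set r : ℚ := (U : ℚ) / V with hr
    have hden : (r.den : ℤ) ∣ V := by
      rw [hr, ← Rat.divInt_eq_div]
      exact Rat.den_dvd U V
    have hpos : (0 : ℤ) < r.den := by exact_mod_cast r.den_pos
    have hcop : IsCoprime r.num (r.den : ℤ) := by
      rw [Int.isCoprime_iff_gcd_eq_one]
      exact r.reduced
    have h1 : ((r.den : ℤ)) ^ 2 ≤ N := by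
      obtain ⟨k, hk⟩ := hden
      have hk0 : 1 ≤ k ^ 2 := by
        have h2 : k ≠ 0 := by
          rintro rfl
          rw [mul_zero] at hk
          exact hV0 hk
        have : 0 < k ^ 2 := by positivity
        omega
      rw [hk, mul_pow] at hV
      nlinarith [sq_nonneg ((r.den : ℤ))]
    have h2 := h _ _ hcop hpos h1
    have hVr : (V : ℝ) ≠ 0 := by exact_mod_cast hV0
    have hdr : (((r.den : ℕ) : ℤ) : ℝ) ≠ 0 := by exact_mod_cast hpos.ne'
    rw [Val_congr (a := a) hVr hdr (u' := ((r.num : ℤ) : ℝ))]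
    · exact h2
    · have h3 : ((r.num : ℤ) : ℚ) / ((r.den : ℕ) : ℤ) = U / V := by
        rw [← hr]
        push_cast
        exact Rat.num_div_den r
      exact_mod_cast (congrArg (fun t : ℚ => (t : ℝ)) h3).symm

lemma abs_sign {ε : ℝ} (hε : ε = 1 ∨ ε = -1) (w : ℂ) : |L ((ε : ℂ) * w)| = |L w| := by
  rcases hε with rfl | rfl
  · simp
  · simp

lemma adj (hN : 1 ≤ N) (hsq : Squarefree N) (ha : IsForm N a) (hal : IsAtkinLehner N a)
    (h : SmallVals N a L X) {m c n d : ℤ} (hdet : m * d - n * c = 1 ∨ m * d - n * c = -1) :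
    |L (Val a m c)| ≤ |L (Val a n d)| + 2 * X := by
  have key : ∀ {m c n d : ℤ}, m * d - n * c = 1 → |L (Val a m c) - L (Val a n d)| ≤ 2 * X := by
    intro m c n d hdet
    obtain ⟨ε, hε, U, V, U', V', h1, h2, h3⟩ := symbol hN hsq ha hal hdet
    rw [← map_sub, ← abs_sign hε, ← h3, map_sub]
    calc |L (Val a U V) - L (Val a U' V')| ≤ |L (Val a U V)| + |L (Val a U' V')| := abs_sub _ _
      _ ≤ X + X := add_le_add (h.int hN h1) (h.int hN h2)
      _ = 2 * X := by ring
  have h1 : |L (Val a m c) - L (Val a n d)| ≤ 2 * X := by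
    rcases hdet with h1 | h1
    · exact key h1
    · rw [abs_sub_comm]
      exact key (by linear_combination -h1)
  have h2 := abs_sub_abs_le_abs_sub (L (Val a m c)) (L (Val a n d))
  linarith

lemma exists_neighbour {m c : ℤ} (h : IsCoprime m c) (hc : 2 ≤ c) : ∃ n d : ℤ,
    (m * d - n * c = 1 ∨ m * d - n * c = -1) ∧ 0 < d ∧ 2 * d ≤ c := by
  obtain ⟨u, v, huv⟩ := h
  have hc0 : 0 < c := by omega
  have h1 := Int.emod_nonneg u hc0.ne'
  have h2 := Int.emod_lt_of_pos u hc0
  have h3 := Int.emod_add_mul_ediv u c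
  set d := u % c with hd
  set q := u / c with hq
  have h4 : m * d - (-v - m * q) * c = 1 := by
    linear_combination huv + m * h3
  have hd0 : d ≠ 0 := by
    intro h0
    rw [h0] at h4
    have h5 : c ∣ 1 := ⟨v + m * q, by linear_combination -h4⟩
    have := Int.le_of_dvd one_pos h5
    omega
  by_cases hle : 2 * d ≤ c
  · exact ⟨-v - m * q, d, Or.inl h4, by omega, hle⟩
  · exact ⟨m - (-v - m * q), c - d, Or.inr (by linear_combination -h4), by omega, by omega⟩

theorem growth_aux (hN : 1 ≤ N) (hsq : Squarefree N) (ha : IsForm N a) (hal : IsAtkinLehner N a)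
    (h : SmallVals N a L X) (k : ℕ) : ∀ m c : ℤ, IsCoprime m c → 0 < c → c < 2 ^ (k + 1) →
      |L (Val a m c)| ≤ 2 * X * (k + 1) := by
  have hX := h.nonneg hN
  induction k with
  | zero =>
    intro m c hmc hc hk
    have hc1 : c = 1 := by
      norm_num at hk
      omega
    have h1 := h m c hmc hc (by rw [hc1]; simpa using (by exact_mod_cast hN))
    push_cast
    linarith
  | succ k ih =>
    intro m c hmc hc hk
    by_cases hc2 : c < 2
    · have hc1 : c = 1 := by omega
      have h1 := h m c hmc hc (by rw [hc1]; simpa using (by exact_mod_cast hN))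
      have h2 : (0 : ℝ) ≤ k := Nat.cast_nonneg k
      push_cast
      nlinarith
    · obtain ⟨n, d, hdet, hd0, hd⟩ := exists_neighbour hmc (by omega)
      have hnd : IsCoprime n d := by
        rcases hdet with h1 | h1
        · exact ⟨-c, m, by linear_combination h1⟩
        · exact ⟨c, -m, by linear_combination -h1⟩
      have h1 := ih n d hnd hd0 (by rw [pow_succ] at hk; omega)
      have h2 := adj hN hsq ha hal h hdet
      push_cast
      linarith

/-- **The bound for the values at all cusps.** -/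
theorem growth (hN : 1 ≤ N) (hsq : Squarefree N) (ha : IsForm N a) (hal : IsAtkinLehner N a)
    (h : SmallVals N a L X) {m c : ℤ} (hmc : IsCoprime m c) (hc : 0 < c) :
    |L (Val a m c)| ≤ 2 * X * (Nat.log 2 c.toNat + 1) := by
  apply growth_aux hN hsq ha hal h _ m c hmc hc
  have h1 : c.toNat < 2 ^ (Nat.log 2 c.toNat + 1) := Nat.lt_pow_succ_log_self (by norm_num) _
  have h2 : ((c.toNat : ℕ) : ℤ) = c := Int.toNat_of_nonneg hc.le
  rw [← h2]
  exact_mod_cast h1

lemma Hs_cusp (ha : IsForm N a) {g : SL(2, ℤ)} (hg : InG N g) :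
    Cusp a ((g 0 0 : ℤ) : ℝ) ((g 1 0 : ℤ) : ℝ) (Hs a g) := by
  refine ⟨?_, _, _, _, _, 1, ⟨det_real g, Or.inl rfl, fun τ hτ => ?_⟩, by ring⟩
  · by_contra hc
    push Not at hc
    have := det_real g
    rw [hc.1, hc.2] at this
    norm_num at this
  · have h1 := diff_eq ha hg hτ
    rw [Complex.ofReal_one, one_mul]
    change Fser a (act g τ) = _
    linear_combination h1

/-- **The bound for the Shimura map.** -/
theorem growth_H (hN : 1 ≤ N) (hsq : Squarefree N) (ha : IsForm N a) (hal : IsAtkinLehner N a)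
    (h : SmallVals N a L X) {g : SL(2, ℤ)} (hg : InG N g) (h0 : g 1 0 ≠ 0) :
    |L (Hs a g)| ≤ 2 * X * (Nat.log 2 (g 1 0).natAbs + 1) := by
  have hdet := det_eq g
  rw [← (Hs_cusp ha hg).val ha]
  rcases lt_or_gt_of_ne h0 with hlt | hgt
  · have h1 : Val a ((g 0 0 : ℤ) : ℝ) ((g 1 0 : ℤ) : ℝ) =
        Val a ((-(g 0 0) : ℤ) : ℝ) ((-(g 1 0) : ℤ) : ℝ) := by
      apply Val_congr
      · exact_mod_cast h0
      · exact_mod_cast (neg_ne_zero.2 h0)
      · push_cast
        rw [neg_div_neg_eq]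
    rw [h1]
    have h2 := growth hN hsq ha hal h (m := -(g 0 0)) (c := -(g 1 0))
      ⟨-(g 1 1), g 0 1, by linear_combination hdet⟩ (by omega)
    have h3 : (-(g 1 0)).toNat = (g 1 0).natAbs := by omega
    rwa [h3] at h2
  · have h2 := growth hN hsq ha hal h (m := g 0 0) (c := g 1 0)
      ⟨g 1 1, -(g 0 1), by linear_combination hdet⟩ hgt
    have h3 : (g 1 0).toNat = (g 1 0).natAbs := by omega
    rwa [h3] at h2

end Pool.Agent.K4H24.SZ
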