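import Pool.Agent.K4H24.SZ.Conv

/-!
# Semistable levels: cusps with denominators at most `√N`
-/

open Complex Filter Topology MatrixGroups

namespace Pool.Agent.K4H24.SZ

open Pool.Agent.TH133.SH

variable {a : ℕ → ℤ} {N : ℕ}

/-- The integers `a(n)` are the coefficients of a newform of weight two and squarefree level `N`;
the equations of Atkin and Lehner for the involutions `W_Q`, `Q ∣ N`, are part of the definition. -/
structure IsSemistable (N : ℕ) (a : ℕ → ℤ) : Prop extends IsNewform N a where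
  squarefree : Squarefree N
  atkin_lehner : IsAtkinLehner N a

/-- `w` is the value of `F` at the cusp `r`, the limit of `F(r + i y)` for `y → 0`. -/
def IsValue (a : ℕ → ℤ) (r : ℚ) (w : ℂ) : Prop :=
  Tendsto (fun y : ℝ => Fser a ((r : ℂ) + (y : ℂ) * Complex.I)) (𝓝[>] 0) (𝓝 w)

/-- The real coordinates of `w` in the basis `Ω₁`, `Ω₂` have absolute values at most `X`. -/
def RealCoordBound (Ω₁ Ω₂ w : ℂ) (X : ℝ) : Prop :=
  ∀ x y : ℝ, w = (x : ℂ) * Ω₁ + (y : ℂ) * Ω₂ → |x| ≤ X ∧ |y| ≤ X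

/-- The coordinates of `H(γ)` are at most `C N ^ κ` for the newforms of squarefree level `N` and all
`γ ∈ Γ₀(N)` with entries at most `N ^ A`. -/
def SemistableEntries (A : ℕ) : Prop :=
  ∃ κ : ℝ, 0 < κ ∧ ∃ C : ℝ, 0 < C ∧ ∀ N : ℕ, 1 ≤ N → ∀ a : ℕ → ℤ, IsSemistable N a →
    ∀ Ω₁ Ω₂ : ℂ, IsBasis N a Ω₁ Ω₂ → ∀ p q r s : ℤ, p * s - q * r = 1 → (N : ℤ) ∣ r →
      |p| ≤ (N : ℤ) ^ A → |q| ≤ (N : ℤ) ^ A → |r| ≤ (N : ℤ) ^ A → |s| ≤ (N : ℤ) ^ A →
      CoordBound a Ω₁ Ω₂ p q r s (C * (N : ℝ) ^ κ)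

/-- The coordinates of `H(γ)` are at most `C N ^ κ (1 + log |r|)` for the newforms of squarefree
level `N` and all `γ ∈ Γ₀(N)` with lower left entry `r ≠ 0`. -/
def SemistableLog : Prop :=
  ∃ κ : ℝ, 0 < κ ∧ ∃ C : ℝ, 0 < C ∧ ∀ N : ℕ, 1 ≤ N → ∀ a : ℕ → ℤ, IsSemistable N a →
    ∀ Ω₁ Ω₂ : ℂ, IsBasis N a Ω₁ Ω₂ → ∀ p q r s : ℤ, p * s - q * r = 1 → (N : ℤ) ∣ r → r ≠ 0 →
      CoordBound a Ω₁ Ω₂ p q r s (C * (N : ℝ) ^ κ * (1 + Real.log |(r : ℝ)|))

/-- The coordinates of the values of `F` at the rational numbers with denominators at most `√N` are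
at most `C N ^ κ`, for the newforms of squarefree level `N`. -/
def SqrtDenominators : Prop :=
  ∃ κ : ℝ, 0 < κ ∧ ∃ C : ℝ, 0 < C ∧ ∀ N : ℕ, 1 ≤ N → ∀ a : ℕ → ℤ, IsSemistable N a →
    ∀ Ω₁ Ω₂ : ℂ, IsBasis N a Ω₁ Ω₂ → ∀ r : ℚ, r.den ^ 2 ≤ N → ∀ w : ℂ, IsValue a r w →
      RealCoordBound Ω₁ Ω₂ w (C * (N : ℝ) ^ κ)

/-- The coordinates of the value of `F` at each rational number with denominator `c` are at most
`C N ^ κ (1 + log c)`, for the newforms of squarefree level `N`. -/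
def AllDenominators : Prop :=
  ∃ κ : ℝ, 0 < κ ∧ ∃ C : ℝ, 0 < C ∧ ∀ N : ℕ, 1 ≤ N → ∀ a : ℕ → ℤ, IsSemistable N a →
    ∀ Ω₁ Ω₂ : ℂ, IsBasis N a Ω₁ Ω₂ → ∀ r : ℚ, ∀ w : ℂ, IsValue a r w →
      RealCoordBound Ω₁ Ω₂ w (C * (N : ℝ) ^ κ * (1 + Real.log r.den))

variable {Ω₁ Ω₂ : ℂ}

lemma L₂_real (hb : IsBasis N a Ω₁ Ω₂) (x y : ℝ) :
    L₂ Ω₂ ((x : ℂ) * Ω₁ + (y : ℂ) * Ω₂) = y := by
  have := hb.im₂.ne'
  simp [L₂, hb.im₁]
  field_simp

lemma L₁_real (hb : IsBasis N a Ω₁ Ω₂) (x y : ℝ) :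
    L₁ Ω₁ Ω₂ ((x : ℂ) * Ω₁ + (y : ℂ) * Ω₂) = x := by
  have h1 := hb.re₁.ne'
  have h2 := L₂_real hb x y
  rw [L₁, LinearMap.smul_apply, LinearMap.sub_apply, LinearMap.smul_apply, h2]
  simp
  field_simp
  ring

lemma eq_coords (hb : IsBasis N a Ω₁ Ω₂) (w : ℂ) :
    w = ((L₁ Ω₁ Ω₂ w : ℝ) : ℂ) * Ω₁ + ((L₂ Ω₂ w : ℝ) : ℂ) * Ω₂ := by
  have h1 := hb.re₁.ne'
  have h2 := hb.im₂.ne'
  apply Complex.ext
  · simp [L₁, L₂]
    field_simp
    ring
  · simp [L₁, L₂, hb.im₁]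
    field_simp

lemma RealCoordBound.out (hb : IsBasis N a Ω₁ Ω₂) {w : ℂ} {X : ℝ}
    (h : RealCoordBound Ω₁ Ω₂ w X) : |L₁ Ω₁ Ω₂ w| ≤ X ∧ |L₂ Ω₂ w| ≤ X :=
  h _ _ (eq_coords hb w)

lemma RealCoordBound.mk' (hb : IsBasis N a Ω₁ Ω₂) {w : ℂ} {X : ℝ}
    (h : |L₁ Ω₁ Ω₂ w| ≤ X ∧ |L₂ Ω₂ w| ≤ X) : RealCoordBound Ω₁ Ω₂ w X := by
  intro x y hxy
  rw [hxy, L₁_real hb, L₂_real hb] at h
  exact h

lemma exists_ne (ha : IsForm N a) (hb : IsBasis N a Ω₁ Ω₂) : ∃ τ : ℂ, 0 < τ.im ∧ fser a τ ≠ 0 := by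
  by_contra hcon
  push Not at hcon
  obtain ⟨p, q, r, s, h1, h2, h3⟩ := hb.mem₁
  have hdet : (p : ℝ) * s - (q : ℝ) * r = 1 := by exact_mod_cast congrArg (fun x : ℤ => (x : ℝ)) h1
  set u : Set ℂ := {w : ℂ | 0 < w.im} with hu
  have huc : Convex ℝ u := convex_halfSpace_im_gt 0
  have hI : (0 : ℝ) < Complex.I.im := by simp
  have h4 := huc.norm_image_sub_le_of_norm_hasDerivWithin_le
    (f := Fser a) (f' := fun τ => 0) (C := 0)
    (fun v hv => by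
      have hv0 : 0 < v.im := hv
      have h5 := hasDerivAt_Fser ha.zero ha.summable hv0
      rw [hcon v hv0, mul_zero] at h5
      exact h5.hasDerivWithinAt)
    (fun v hv => by simp) (x := Complex.I) (y := mob p q r s Complex.I)
    (by exact hI) (by exact im_mob_pos hdet hI)
  rw [zero_mul] at h4
  have h5 := norm_le_zero_iff.1 h4
  have h6 : Ω₁ = 0 := by
    rw [h3, ← h5]
    unfold Hval mob
    push_cast
    rfl
  have := hb.re₁
  rw [h6] at this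
  simp at this

lemma IsValue.per {r : ℚ} {w : ℂ} : IsValue a r w ↔ Per a ((r.num : ℝ) / (r.den : ℤ)) w := by
  unfold IsValue Per
  have h1 : ((r.num : ℝ) / ((r.den : ℤ) : ℝ)) = (r : ℝ) := by
    push_cast
    exact_mod_cast (congrArg (fun t : ℚ => (t : ℝ)) (Rat.num_div_den r))
  rw [h1]
  norm_cast

lemma IsValue.val {r : ℚ} {w : ℂ} (h : IsValue a r w) : Val a r.num (r.den : ℤ) = w := by
  rw [IsValue.per] at h
  unfold Val
  rw [if_neg]
  · exact h.limUnder_eq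
  · exact_mod_cast r.den_ne_zero

lemma cop_rat (r : ℚ) : IsCoprime r.num (r.den : ℤ) := by
  rw [Int.isCoprime_iff_gcd_eq_one]
  exact r.reduced

theorem exists_value (hN : 1 ≤ N) (ha : IsSemistable N a) (r : ℚ) : ∃ w : ℂ, IsValue a r w := by
  obtain ⟨w, hw⟩ := exists_cusp hN ha.squarefree ha.toIsForm ha.atkin_lehner (cop_rat r)
  refine ⟨w, ?_⟩
  rw [IsValue.per]
  exact hw.per ha.toIsForm (by exact_mod_cast r.den_ne_zero)

lemma smallVals_of (hN : 1 ≤ N) (ha : IsSemistable N a) {L : ℂ →ₗ[ℝ] ℝ} {X : ℝ}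
    (h : ∀ r : ℚ, r.den ^ 2 ≤ N → ∀ w : ℂ, IsValue a r w → |L w| ≤ X) : SmallVals N a L X := by
  intro m c hmc hc hcN
  set r : ℚ := (m : ℚ) / c with hr
  have h1 : r.num = m ∧ (r.den : ℤ) = c := by
    have h2 : (r.den : ℤ) = c := by
      rw [hr]
      exact Rat.den_div_eq_of_coprime hc (Int.isCoprime_iff_nat_coprime.1 hmc)
    have h3 : r.num = m := by
      rw [hr]
      exact Rat.num_div_eq_of_coprime hc (Int.isCoprime_iff_nat_coprime.1 hmc)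
    exact ⟨h3, h2⟩
  obtain ⟨w, hw⟩ := exists_value hN ha r
  have h2 := h r (by
    have : ((r.den : ℤ)) ^ 2 ≤ N := by rw [h1.2]; exact hcN
    exact_mod_cast this) w hw
  have h3 := hw.val
  rw [h1.1, h1.2] at h3
  rw [h3]
  exact h2

lemma natlog_le (n : ℕ) : (Nat.log 2 n : ℝ) ≤ 2 * Real.log n := by
  rcases Nat.eq_zero_or_pos n with rfl | hn
  · simp
  · have h3 : (2 : ℝ) ^ Nat.log 2 n ≤ n := by
      exact_mod_cast Nat.pow_log_le_self 2 hn.ne'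
    have h6 := Real.log_le_log (by positivity) h3
    rw [Real.log_pow] at h6
    have h7 : (0.5 : ℝ) ≤ Real.log 2 := by
      have := Real.log_two_gt_d9
      linarith
    have h8 : (0 : ℝ) ≤ Nat.log 2 n := Nat.cast_nonneg _
    nlinarith

/-- The inequality for one newform. -/
theorem inequality (hN : 1 ≤ N) (ha : IsSemistable N a) {L : ℂ →ₗ[ℝ] ℝ} {X : ℝ}
    (h : ∀ r : ℚ, r.den ^ 2 ≤ N → ∀ w : ℂ, IsValue a r w → |L w| ≤ X) :
    (∀ p q r s : ℤ, p * s - q * r = 1 → (N : ℤ) ∣ r → r ≠ 0 →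
      |L (Hval a p q r s)| ≤ 2 * X * (Nat.log 2 r.natAbs + 1)) ∧
    (∀ r : ℚ, ∀ w : ℂ, IsValue a r w → |L w| ≤ 2 * X * (Nat.log 2 r.den + 1)) := by
  have hs := smallVals_of hN ha h
  constructor
  · intro p q r s hdet hr hr0
    exact growth_H hN ha.squarefree ha.toIsForm ha.atkin_lehner hs (g := mk p q r s hdet) hr hr0
  · intro r w hw
    have h1 := growth hN ha.squarefree ha.toIsForm ha.atkin_lehner hs (cop_rat r)
      (by exact_mod_cast r.den_pos)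
    rw [hw.val] at h1
    simpa using h1

theorem tfae : List.TFAE [SemistableEntries 2, SqrtDenominators, AllDenominators,
    ∀ A : ℕ, SemistableEntries A, SemistableLog] := by
  tfae_have 4 → 1 := fun h => h 2
  tfae_have 1 → 5 := by
    rintro ⟨κ, hκ, C, hC, h⟩
    refine ⟨κ + 1, by positivity, 2 * C, by positivity, ?_⟩
    intro N hN a ha Ω₁ Ω₂ hb p q r s hdet hr hr0 m n hmn
    have hN0 : (0 : ℝ) < N := by exact_mod_cast hN
    set B : ℝ := C * (N : ℝ) ^ κ with hBdef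
    set γ := mk p q r s hdet with hγdef
    have hγ : InG N γ := hr
    have key : ∀ δ : SL(2, ℤ), InG N δ → Bounded ((N : ℤ) ^ 2) δ →
        |L₁ Ω₁ Ω₂ (Hs a δ)| ≤ B ∧ |L₂ Ω₂ (Hs a δ)| ≤ B := by
      intro δ hδ hδ'
      obtain ⟨m', n', hmn'⟩ := lattice ha.toIsForm hb (z := Hs a δ) ⟨δ, hδ, rfl⟩
      have h1 := h N hN a ha Ω₁ Ω₂ hb (δ 0 0) (δ 0 1) (δ 1 0) (δ 1 1) (det_eq δ) hδ (hδ' 0 0)
        (hδ' 0 1) (hδ' 1 0) (hδ' 1 1) m' n' hmn'
      rw [hmn', L₁_apply hb, L₂_apply hb]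
      exact h1
    have hb1 := coord_bound hN ha.toIsForm (L₁ Ω₁ Ω₂) (fun δ h1 h2 => (key δ h1 h2).1) hγ hr0
    have hb2 := coord_bound hN ha.toIsForm (L₂ Ω₂) (fun δ h1 h2 => (key δ h1 h2).2) hγ hr0
    have hHγ : Hs a γ = (m : ℂ) * Ω₁ + (n : ℂ) * Ω₂ := hmn
    rw [hHγ, L₁_apply hb] at hb1
    rw [hHγ, L₂_apply hb] at hb2
    have e1 : 2 * B * N * (1 + Real.log |((γ 1 0 : ℤ) : ℝ)|) =
        2 * C * (N : ℝ) ^ (κ + 1) * (1 + Real.log |(r : ℝ)|) := by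
      rw [hBdef, Real.rpow_add hN0, Real.rpow_one]
      have : γ 1 0 = r := rfl
      rw [this]
      ring
    rw [e1] at hb1 hb2
    exact ⟨hb1, hb2⟩
  tfae_have 5 → 4 := by
    rintro ⟨κ, hκ, C, hC, h⟩ A
    refine ⟨κ + 1, by positivity, C * (1 + A), by positivity, ?_⟩
    intro N hN a ha Ω₁ Ω₂ hb p q r s hdet hr _ _ hrA _ m n hmn
    have hN0 : (0 : ℝ) < N := by exact_mod_cast hN
    have hN1 : (1 : ℝ) ≤ N := by exact_mod_cast hN
    by_cases hr0 : r = 0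
    · have h1 : Hs a (mk p q r s hdet) = 0 := by
        have h2 := (isCuspHom ha.toIsForm Complex.reLm).zero_of_lower
          (g := mk p q r s hdet) hr0
        have h3 := (isCuspHom ha.toIsForm Complex.imLm).zero_of_lower
          (g := mk p q r s hdet) hr0
        exact Complex.ext h2 h3
      have hHγ : Hs a (mk p q r s hdet) = (m : ℂ) * Ω₁ + (n : ℂ) * Ω₂ := hmn
      rw [h1] at hHγ
      have h4 := L₁_apply hb m n
      have h5 := L₂_apply hb m n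
      rw [← hHγ, map_zero] at h4 h5
      rw [← h4, ← h5, abs_zero]
      constructor <;> positivity
    · have h1 := h N hN a ha Ω₁ Ω₂ hb p q r s hdet hr hr0 m n hmn
      have h2 : Real.log |(r : ℝ)| ≤ A * N := by
        have h3 : |(r : ℝ)| ≤ (N : ℝ) ^ A := by exact_mod_cast hrA
        have h4 : 0 < |(r : ℝ)| := by
          rw [abs_pos]
          exact_mod_cast hr0
        have h5 := Real.log_le_log h4 h3
        rw [Real.log_pow] at h5
        have h6 := Real.log_le_self hN0.le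
        have h7 : (0 : ℝ) ≤ A := Nat.cast_nonneg _
        nlinarith
      have h3 : C * (N : ℝ) ^ κ * (1 + Real.log |(r : ℝ)|) ≤ C * (1 + A) * (N : ℝ) ^ (κ + 1) := by
        rw [Real.rpow_add hN0, Real.rpow_one]
        have h7 : (0 : ℝ) ≤ A := Nat.cast_nonneg _
        calc C * (N : ℝ) ^ κ * (1 + Real.log |(r : ℝ)|)
            ≤ C * (N : ℝ) ^ κ * (N + A * N) := by gcongr
          _ = C * (1 + A) * ((N : ℝ) ^ κ * N) := by ring
      exact ⟨h1.1.trans h3, h1.2.trans h3⟩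
  tfae_have 5 → 2 := by
    rintro ⟨κ, hκ, C, hC, h⟩
    refine ⟨κ + 2, by positivity, 27 * C, by positivity, ?_⟩
    intro N hN a ha Ω₁ Ω₂ hb r hr w hw
    have hN0 : (0 : ℝ) < N := by exact_mod_cast hN
    have hN1 : (1 : ℝ) ≤ N := by exact_mod_cast hN
    have hN1' : (1 : ℤ) ≤ N := by exact_mod_cast hN
    have hNκ : 0 ≤ C * (N : ℝ) ^ κ := by positivity
    set Y : ℝ := C * (N : ℝ) ^ κ * (9 * N) with hY
    have key : ∀ δ : SL(2, ℤ), InG N δ →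
        |δ 1 0| ≤ 3 * N * ((r.den : ℤ) * ((N + 1) * (r.den : ℤ))) →
        |L₁ Ω₁ Ω₂ (Hs a δ)| ≤ Y ∧ |L₂ Ω₂ (Hs a δ)| ≤ Y := by
      intro δ hδ hδ'
      by_cases h0 : δ 1 0 = 0
      · have h2 := (isCuspHom ha.toIsForm (L₁ Ω₁ Ω₂)).zero_of_lower h0
        have h3 := (isCuspHom ha.toIsForm (L₂ Ω₂)).zero_of_lower h0
        rw [h2, h3, abs_zero]
        constructor <;> positivity
      · obtain ⟨m', n', hmn'⟩ := lattice ha.toIsForm hb (z := Hs a δ) ⟨δ, hδ, rfl⟩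
        have h1 := h N hN a ha Ω₁ Ω₂ hb (δ 0 0) (δ 0 1) (δ 1 0) (δ 1 1) (det_eq δ) hδ h0 m' n' hmn'
        rw [hmn', L₁_apply hb, L₂_apply hb]
        have h2 : Real.log |((δ 1 0 : ℤ) : ℝ)| ≤ 8 * N := by
          have h3 : |((δ 1 0 : ℤ) : ℝ)| ≤ 6 * (N : ℝ) ^ 3 := by
            have hden : ((r.den : ℤ)) ^ 2 ≤ N := by exact_mod_cast hr
            have h4 : 3 * (N : ℤ) * ((r.den : ℤ) * ((N + 1) * (r.den : ℤ))) ≤ 6 * (N : ℤ) ^ 3 := by
              calc 3 * (N : ℤ) * ((r.den : ℤ) * ((N + 1) * (r.den : ℤ)))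
                  = 3 * N * (N + 1) * (r.den : ℤ) ^ 2 := by ring
                _ ≤ 3 * N * (N + N) * N := by gcongr
                _ = 6 * (N : ℤ) ^ 3 := by ring
            exact_mod_cast hδ'.trans h4
          have h4 : 0 < |((δ 1 0 : ℤ) : ℝ)| := by
            rw [abs_pos]
            exact_mod_cast h0
          have h5 := Real.log_le_log h4 h3
          rw [Real.log_mul (by norm_num) (by positivity), Real.log_pow] at h5
          have h6 := Real.log_le_sub_one_of_pos hN0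
          have h7 := Real.log_le_sub_one_of_pos (show (0 : ℝ) < 6 by norm_num)
          push_cast at h5
          linarith
        have h3 : C * (N : ℝ) ^ κ * (1 + Real.log |((δ 1 0 : ℤ) : ℝ)|) ≤ Y := by
          rw [hY]
          gcongr
          linarith
        exact ⟨h1.1.trans h3, h1.2.trans h3⟩
    have hne := exists_ne ha.toIsForm hb
    have hc1 := conv hN ha.squarefree ha.toIsNewform ha.atkin_lehner hne (L := L₁ Ω₁ Ω₂) (cop_rat r)
      (by exact_mod_cast r.den_pos) (fun δ h1 h2 => (key δ h1 h2).1)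
    have hc2 := conv hN ha.squarefree ha.toIsNewform ha.atkin_lehner hne (L := L₂ Ω₂) (cop_rat r)
      (by exact_mod_cast r.den_pos) (fun δ h1 h2 => (key δ h1 h2).2)
    rw [hw.val] at hc1 hc2
    have hfin : ((N : ℝ) + 2) * Y ≤ 27 * C * (N : ℝ) ^ (κ + 2) := by
      rw [Real.rpow_add hN0, Real.rpow_two]
      calc ((N : ℝ) + 2) * Y ≤ (3 * N) * Y := by
            have : 0 ≤ Y := by positivity
            gcongr
            linarith
        _ = 27 * C * ((N : ℝ) ^ κ * N ^ 2) := by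
            rw [hY]
            ring
    exact RealCoordBound.mk' hb ⟨hc1.trans hfin, hc2.trans hfin⟩
  tfae_have 2 → 5 := by
    rintro ⟨κ, hκ, C, hC, h⟩
    refine ⟨κ, hκ, 4 * C, by positivity, ?_⟩
    intro N hN a ha Ω₁ Ω₂ hb p q r s hdet hr hr0 m n hmn
    have hX : 0 ≤ C * (N : ℝ) ^ κ := by positivity
    have h1 := (inequality hN ha (L := L₁ Ω₁ Ω₂) (fun r hr w hw =>
      ((h N hN a ha Ω₁ Ω₂ hb r hr w hw).out hb).1)).1 p q r s hdet hr hr0
    have h2 := (inequality hN ha (L := L₂ Ω₂) (fun r hr w hw =>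
      ((h N hN a ha Ω₁ Ω₂ hb r hr w hw).out hb).2)).1 p q r s hdet hr hr0
    rw [hmn, L₁_apply hb] at h1
    rw [hmn, L₂_apply hb] at h2
    have h3 : 2 * (C * (N : ℝ) ^ κ) * (Nat.log 2 r.natAbs + 1) ≤
        4 * C * (N : ℝ) ^ κ * (1 + Real.log |(r : ℝ)|) := by
      have h4 := natlog_le r.natAbs
      have h5 : ((r.natAbs : ℕ) : ℝ) = |(r : ℝ)| := by
        rw [Nat.cast_natAbs, Int.cast_abs]
      rw [h5] at h4
      nlinarith
    exact ⟨h1.trans h3, h2.trans h3⟩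
  tfae_have 2 → 3 := by
    rintro ⟨κ, hκ, C, hC, h⟩
    refine ⟨κ, hκ, 4 * C, by positivity, ?_⟩
    intro N hN a ha Ω₁ Ω₂ hb r w hw
    have hX : 0 ≤ C * (N : ℝ) ^ κ := by positivity
    have h1 := (inequality hN ha (L := L₁ Ω₁ Ω₂) (fun r hr w hw =>
      ((h N hN a ha Ω₁ Ω₂ hb r hr w hw).out hb).1)).2 r w hw
    have h2 := (inequality hN ha (L := L₂ Ω₂) (fun r hr w hw =>
      ((h N hN a ha Ω₁ Ω₂ hb r hr w hw).out hb).2)).2 r w hw
    have h3 : 2 * (C * (N : ℝ) ^ κ) * (Nat.log 2 r.den + 1) ≤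
        4 * C * (N : ℝ) ^ κ * (1 + Real.log r.den) := by
      have h4 := natlog_le r.den
      nlinarith
    exact RealCoordBound.mk' hb ⟨h1.trans h3, h2.trans h3⟩
  tfae_have 3 → 2 := by
    rintro ⟨κ, hκ, C, hC, h⟩
    refine ⟨κ + 1, by positivity, C, hC, ?_⟩
    intro N hN a ha Ω₁ Ω₂ hb r hr w hw
    have hN0 : (0 : ℝ) < N := by exact_mod_cast hN
    have h1 := (h N hN a ha Ω₁ Ω₂ hb r w hw).out hb
    have h2 : C * (N : ℝ) ^ κ * (1 + Real.log r.den) ≤ C * (N : ℝ) ^ (κ + 1) := by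
      rw [Real.rpow_add hN0, Real.rpow_one]
      have h3 : 1 + Real.log r.den ≤ N := by
        have h4 : (0 : ℝ) < r.den := by exact_mod_cast r.den_pos
        have h5 := Real.log_le_sub_one_of_pos h4
        have h6 : r.den ≤ r.den ^ 2 := Nat.le_self_pow (by norm_num) _
        have h7 : (r.den : ℝ) ≤ N := by exact_mod_cast h6.trans hr
        linarith
      calc C * (N : ℝ) ^ κ * (1 + Real.log r.den) ≤ C * (N : ℝ) ^ κ * N := by gcongr
        _ = C * ((N : ℝ) ^ κ * N) := by ring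
    exact RealCoordBound.mk' hb ⟨h1.1.trans h2, h1.2.trans h2⟩
  tfae_finish

end Pool.Agent.K4H24.SZ
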