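import Pool.Agent.K4H24.SZ.Hecke

/-!
# The Hecke eigenvalue `a(ℓ)` has absolute value less than `ℓ + 1`
-/

open Complex Filter Topology MatrixGroups

namespace Pool.Agent.K4H24.SZ

open Pool.Agent.TH133.SH

variable {a : ℕ → ℤ} {N : ℕ}

/-- The function `Im(τ) |f(τ)|`. -/
noncomputable def GG (a : ℕ → ℤ) (τ : ℂ) : ℝ := τ.im * ‖fser a τ‖

theorem hecke_f (ha : IsNewform N a) {ℓ : ℕ} (hℓ : ℓ.Prime) (hN : ¬ ℓ ∣ N) {τ : ℂ}
    (hτ : 0 < τ.im) : (a ℓ : ℂ) * fser a τ =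
      ∑ j ∈ Finset.range ℓ, fser a ((τ + j) / ℓ) / ℓ + (ℓ : ℂ) * fser a ((ℓ : ℂ) * τ) := by
  have hf := ha.toIsForm
  have hℓ0 : (ℓ : ℂ) ≠ 0 := by exact_mod_cast hℓ.ne_zero
  have h1 := (hasDerivAt_Fser hf.zero hf.summable hτ).const_mul (a ℓ : ℂ)
  have h2 : HasDerivAt (fun z : ℂ => ∑ j ∈ Finset.range ℓ, Fser a ((z + j) / ℓ) +
      Fser a ((ℓ : ℂ) * z))
      (∑ j ∈ Finset.range ℓ, 2 * (Real.pi : ℂ) * Complex.I * fser a ((τ + j) / ℓ) * (1 / (ℓ : ℂ)) +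
        2 * (Real.pi : ℂ) * Complex.I * fser a ((ℓ : ℂ) * τ) * (ℓ : ℂ)) τ := by
    apply HasDerivAt.add
    · apply HasDerivAt.fun_sum
      intro j _
      have h3 : HasDerivAt (fun z : ℂ => (z + j) / ℓ) (1 / (ℓ : ℂ)) τ :=
        ((hasDerivAt_id τ).add_const (j : ℂ)).div_const (ℓ : ℂ)
      exact (hasDerivAt_Fser hf.zero hf.summable (im_hecke hℓ.pos j hτ)).comp τ h3
    · have h3 : HasDerivAt (fun z : ℂ => (ℓ : ℂ) * z) (ℓ : ℂ) τ := by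
        simpa using (hasDerivAt_id τ).const_mul (ℓ : ℂ)
      exact (hasDerivAt_Fser hf.zero hf.summable (im_hecke' hℓ.pos hτ)).comp τ h3
  have h3 : (fun z : ℂ => (a ℓ : ℂ) * Fser a z) =ᶠ[𝓝 τ]
      (fun z : ℂ => ∑ j ∈ Finset.range ℓ, Fser a ((z + j) / ℓ) + Fser a ((ℓ : ℂ) * z)) := by
    have hopen : {z : ℂ | 0 < z.im} ∈ 𝓝 τ :=
      (isOpen_lt continuous_const Complex.continuous_im).mem_nhds hτ
    filter_upwards [hopen] with z hz
    exact hecke_F ha hℓ hN hz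
  have h4 := (h2.congr_of_eventuallyEq h3).unique h1
  have hpi : (2 * (Real.pi : ℂ) * Complex.I) ≠ 0 := by
    simp [Real.pi_ne_zero]
  apply mul_left_cancel₀ hpi
  have h5 : ∑ j ∈ Finset.range ℓ, 2 * (Real.pi : ℂ) * Complex.I * fser a ((τ + j) / ℓ) *
      (1 / (ℓ : ℂ)) = 2 * (Real.pi : ℂ) * Complex.I *
        ∑ j ∈ Finset.range ℓ, fser a ((τ + j) / ℓ) / ℓ := by
    rw [Finset.mul_sum]
    refine Finset.sum_congr rfl (fun j _ => ?_)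
    ring
  rw [h5] at h4
  linear_combination -h4

lemma hecke_G (ha : IsNewform N a) {ℓ : ℕ} (hℓ : ℓ.Prime) (hN : ¬ ℓ ∣ N) {τ : ℂ}
    (hτ : 0 < τ.im) : |(a ℓ : ℝ)| * GG a τ ≤
      ∑ j ∈ Finset.range ℓ, GG a ((τ + j) / ℓ) + GG a ((ℓ : ℂ) * τ) := by
  have hℓ' : (0 : ℝ) < ℓ := by exact_mod_cast hℓ.pos
  have h1 := congrArg norm (hecke_f ha hℓ hN hτ)
  have h2 : ‖∑ j ∈ Finset.range ℓ, fser a ((τ + j) / ℓ) / ℓ + (ℓ : ℂ) * fser a ((ℓ : ℂ) * τ)‖ ≤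
      ∑ j ∈ Finset.range ℓ, ‖fser a ((τ + j) / ℓ)‖ / ℓ + ℓ * ‖fser a ((ℓ : ℂ) * τ)‖ := by
    refine (norm_add_le _ _).trans (add_le_add ?_ ?_)
    · refine (norm_sum_le _ _).trans (le_of_eq ?_)
      refine Finset.sum_congr rfl (fun j _ => ?_)
      rw [norm_div, Complex.norm_natCast]
    · rw [norm_mul, Complex.norm_natCast]
  rw [← h1, norm_mul, Complex.norm_intCast] at h2
  unfold GG
  have h3 : ∀ j : ℕ, ((τ + j) / ℓ).im = τ.im / ℓ := fun j => by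
    rw [Complex.div_natCast_im]
    simp
  have h4 : ((ℓ : ℂ) * τ).im = ℓ * τ.im := by
    simp [Complex.mul_im]
  have h5 : ∑ j ∈ Finset.range ℓ, ((τ + j) / ℓ).im * ‖fser a ((τ + j) / ℓ)‖ =
      τ.im * ∑ j ∈ Finset.range ℓ, ‖fser a ((τ + j) / ℓ)‖ / ℓ := by
    rw [Finset.mul_sum]
    refine Finset.sum_congr rfl (fun j _ => ?_)
    rw [h3]
    ring
  rw [h5, h4]
  have h6 := mul_le_mul_of_nonneg_left h2 hτ.le
  linarith

lemma decay_G (ha : IsForm N a) : ∃ K : ℝ, 0 ≤ K ∧ ∀ τ : ℂ, 1 ≤ τ.im → GG a τ ≤ K / τ.im := by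
  have h1 := (ha.summable Complex.I (by simp)).norm
  refine ⟨∑' k : ℕ, |(a k : ℝ)| * Real.exp (-(2 * Real.pi * k)), tsum_nonneg (fun k => by positivity),
    fun τ hτ => ?_⟩
  have hs : Summable (fun k : ℕ => |(a k : ℝ)| * Real.exp (-(2 * Real.pi * k))) := by
    refine h1.congr (fun k => ?_)
    rw [norm_term]
    simp
  have hτ0 : 0 < τ.im := by linarith
  have hexp : Real.exp (-(2 * Real.pi * (τ.im - 1))) ≤ 1 / τ.im ^ 2 := by
    rw [Real.exp_neg, ← one_div]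
    apply one_div_le_one_div_of_le (by positivity)
    have h2 := Real.add_one_le_exp (Real.pi * (τ.im - 1))
    have h3 := Real.pi_gt_three
    have h4 : τ.im ≤ Real.exp (Real.pi * (τ.im - 1)) := by nlinarith
    have h5 : Real.exp (2 * Real.pi * (τ.im - 1)) = Real.exp (Real.pi * (τ.im - 1)) ^ 2 := by
      rw [← Real.exp_nat_mul]
      congr 1
      push_cast
      ring
    rw [h5]
    gcongr
  have hterm : ∀ k : ℕ, ‖(a k : ℂ) * Complex.exp (2 * (Real.pi : ℂ) * Complex.I * (k : ℂ) * τ)‖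
      ≤ (|(a k : ℝ)| * Real.exp (-(2 * Real.pi * k))) * (1 / τ.im ^ 2) := by
    intro k
    rcases Nat.eq_zero_or_pos k with rfl | hk
    · simp [ha.zero]
    · have hk1 : (1 : ℝ) ≤ k := by exact_mod_cast hk
      rw [norm_term]
      have h4 : Real.exp (-(2 * Real.pi * k * τ.im)) ≤
          Real.exp (-(2 * Real.pi * k)) * Real.exp (-(2 * Real.pi * (τ.im - 1))) := by
        rw [← Real.exp_add]
        apply Real.exp_le_exp.2
        have h5 : 0 ≤ 2 * Real.pi * (((k : ℝ) - 1) * (τ.im - 1)) := by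
          have := Real.pi_pos
          have h6 : 0 ≤ (k : ℝ) - 1 := by linarith
          have h7 : 0 ≤ τ.im - 1 := by linarith
          positivity
        nlinarith
      calc |(a k : ℝ)| * Real.exp (-(2 * Real.pi * k * τ.im))
          ≤ |(a k : ℝ)| * (Real.exp (-(2 * Real.pi * k)) * Real.exp (-(2 * Real.pi * (τ.im - 1)))) := by
            gcongr
        _ ≤ |(a k : ℝ)| * (Real.exp (-(2 * Real.pi * k)) * (1 / τ.im ^ 2)) := by gcongr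
        _ = _ := by ring
  have h8 := tsum_of_norm_bounded (hs.mul_right (1 / τ.im ^ 2)).hasSum hterm
  rw [tsum_mul_right] at h8
  unfold GG
  change ‖fser a τ‖ ≤ _ at h8
  calc τ.im * ‖fser a τ‖ ≤ τ.im *
        ((∑' k : ℕ, |(a k : ℝ)| * Real.exp (-(2 * Real.pi * k))) * (1 / τ.im ^ 2)) := by gcongr
    _ = (∑' k : ℕ, |(a k : ℝ)| * Real.exp (-(2 * Real.pi * k))) / τ.im := by
        field_simp

lemma im_frac {A B C D q : ℝ} (h : A * D - B * C = q) (τ : ℂ) :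
    (((A : ℂ) * τ + B) / ((C : ℂ) * τ + D)).im = q * τ.im / ‖(C : ℂ) * τ + D‖ ^ 2 := by
  rw [Complex.div_im, ← Complex.normSq_eq_norm_sq, ← sub_div]
  congr 1
  simp
  linear_combination τ.im * h

/-- Each point can be moved by an Atkin-Lehner matrix to a point with imaginary part at least
`1 / (2 N)`. -/
lemma exists_high (hN : 1 ≤ N) (hsq : Squarefree N) (hal : IsAtkinLehner N a) {τ : ℂ}
    (hτ : 0 < τ.im) : ∃ τ' : ℂ, GG a τ' = GG a τ ∧ 1 / (2 * (N : ℝ)) ≤ τ'.im := by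
  obtain ⟨g, hg⟩ := ModularGroup.exists_smul_mem_fd (⟨τ, hτ⟩ : UpperHalfPlane)
  have h3 := ModularGroup.three_le_four_mul_im_sq_of_mem_fd hg
  have him : (g • (⟨τ, hτ⟩ : UpperHalfPlane)).im = τ.im / ‖((g 1 0 : ℤ) : ℂ) * τ + ((g 1 1 : ℤ) : ℂ)‖ ^ 2 := by
    rw [ModularGroup.im_smul_eq_div_normSq, ModularGroup.denom_apply, Complex.normSq_eq_norm_sq]
    rfl
  set t := (g • (⟨τ, hτ⟩ : UpperHalfPlane)).im with ht
  have ht0 : 0 < t := (g • (⟨τ, hτ⟩ : UpperHalfPlane)).im_pos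
  have ht1 : 1 / 2 ≤ t := by nlinarith
  have hcop : IsCoprime (g 1 1) (g 1 0) := ⟨g 0 0, -(g 0 1), by linear_combination det_eq g⟩
  obtain ⟨Q, hQ, y, z, w, hdet, hz⟩ := exists_al_cusp hN hsq hcop
  obtain ⟨ε, hε, hf⟩ := hal Q hQ
  have hQ0 : 0 < Q := Nat.pos_of_dvd_of_pos hQ (by omega)
  have hQr : (0 : ℝ) < Q := by exact_mod_cast hQ0
  have hQN : (Q : ℝ) ≤ N := by exact_mod_cast Nat.le_of_dvd (by omega) hQ
  have hdet' : (Q : ℤ) * w * g 1 1 - ((N / Q : ℕ) : ℤ) * y * z = 1 := by linear_combination hdet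
  have hf' := hf τ hτ w y z (g 1 1) hdet'
  have hzC : (N : ℂ) * z = (Q : ℂ) * ((g 1 0 : ℤ) : ℂ) := by exact_mod_cast congrArg (fun x : ℤ => (x : ℂ)) hz
  set D : ℂ := ((g 1 0 : ℤ) : ℂ) * τ + ((g 1 1 : ℤ) : ℂ) with hD
  have hDen : (N : ℂ) * z * τ + Q * ((g 1 1 : ℤ) : ℂ) = (Q : ℂ) * D := by
    rw [hD, hzC]
    ring
  have hD0 : 0 < ‖D‖ := by
    rw [norm_pos_iff]
    intro h0
    rw [h0] at him
    simp at him
    exact ht0.ne' him
  have hNQ : ((N / Q : ℕ) : ℝ) * Q = N := by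
    rw [← Nat.cast_mul, Nat.div_mul_cancel hQ]
  have him' := im_frac (A := (Q : ℝ) * w) (B := y) (C := (N : ℝ) * z) (D := (Q : ℝ) * ((g 1 1 : ℤ) : ℝ))
    (q := Q) (by
      obtain ⟨G, hG⟩ : ∃ G : ℕ, N / Q = G := ⟨_, rfl⟩
      rw [hG] at hdet' hNQ
      have h5 : (Q : ℝ) * w * ((g 1 1 : ℤ) : ℝ) - (G : ℝ) * y * z = 1 := by
        exact_mod_cast hdet'
      rw [← hNQ]
      linear_combination (Q : ℝ) * h5) τ
  push_cast at him'
  rw [hDen] at him' hf'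
  refine ⟨((Q : ℂ) * w * τ + y) / ((Q : ℂ) * D), ?_, ?_⟩
  · unfold GG
    have hε' : ‖(ε : ℂ)‖ = 1 := by
      rcases hε with h1 | h1 <;> rw [h1] <;> simp
    have hn : ‖(ε : ℂ) * ((Q : ℂ) * D) ^ 2 / Q * fser a τ‖ = Q * ‖D‖ ^ 2 * ‖fser a τ‖ := by
      rw [norm_mul, norm_div, norm_mul, norm_pow, norm_mul, Complex.norm_natCast, hε']
      field_simp
    rw [hf', him', hn, norm_mul, Complex.norm_natCast]
    field_simp
  · rw [him', norm_mul, Complex.norm_natCast]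
    have e1 : (Q : ℝ) * τ.im / (Q * ‖D‖) ^ 2 = t / Q := by
      rw [him]
      field_simp
    rw [e1]
    calc 1 / (2 * (N : ℝ)) = (1 / 2) / N := by field_simp
      _ ≤ t / Q := by
        apply div_le_div₀ ht0.le ht1 hQr hQN

/-- **The Hecke eigenvalues are not those of the Eisenstein series.** -/
theorem hecke_lt (hN : 1 ≤ N) (hsq : Squarefree N) (ha : IsNewform N a) (hal : IsAtkinLehner N a)
    {ℓ : ℕ} (hℓ : ℓ.Prime) (hℓN : ¬ ℓ ∣ N) (hne : ∃ τ : ℂ, 0 < τ.im ∧ fser a τ ≠ 0) :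
    |(a ℓ : ℝ)| < ℓ + 1 := by
  by_contra hcon
  push Not at hcon
  obtain ⟨B, hB⟩ := ha.bounded
  obtain ⟨K, hK, hd⟩ := decay_G ha.toIsForm
  set S : ℝ := sSup (GG a '' {τ : ℂ | 0 < τ.im}) with hS
  have hbdd : BddAbove (GG a '' {τ : ℂ | 0 < τ.im}) := by
    refine ⟨B, ?_⟩
    rintro _ ⟨τ, hτ, rfl⟩
    exact hB τ hτ
  have hle : ∀ τ : ℂ, 0 < τ.im → GG a τ ≤ S := fun τ hτ => le_csSup hbdd ⟨τ, hτ, rfl⟩
  obtain ⟨τ₀, hτ₀, hf₀⟩ := hne
  have hS0 : 0 < S := by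
    refine lt_of_lt_of_le ?_ (hle τ₀ hτ₀)
    unfold GG
    have := norm_pos_iff.2 hf₀
    positivity
  have hNr : (0 : ℝ) < N := by exact_mod_cast hN
  have hℓ2 : (2 : ℝ) ≤ ℓ := by exact_mod_cast hℓ.two_le
  have hGnn : ∀ τ : ℂ, 0 < τ.im → 0 ≤ GG a τ := fun τ hτ => by
    unfold GG
    positivity
  -- one step
  have hstep : ∀ τ : ℂ, 0 < τ.im → S - GG a ((ℓ : ℂ) * τ) ≤ (ℓ + 1) * (S - GG a τ) := by
    intro τ hτ
    have h1 := hecke_G ha hℓ hℓN hτ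
    have h2 : ∑ j ∈ Finset.range ℓ, GG a ((τ + j) / ℓ) ≤ ℓ * S := by
      have := Finset.sum_le_card_nsmul (Finset.range ℓ) (fun j => GG a ((τ + j) / ℓ)) S
        (fun j _ => hle _ (im_hecke hℓ.pos j hτ))
      simpa using this
    have h3 : ((ℓ : ℝ) + 1) * GG a τ ≤ |(a ℓ : ℝ)| * GG a τ :=
      mul_le_mul_of_nonneg_right hcon (hGnn τ hτ)
    linarith
  have hiter : ∀ n : ℕ, ∀ τ : ℂ, 0 < τ.im → 0 < ((ℓ : ℂ) ^ n * τ).im ∧
      S - GG a ((ℓ : ℂ) ^ n * τ) ≤ (ℓ + 1) ^ n * (S - GG a τ) := by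
    intro n
    induction n with
    | zero =>
      intro τ hτ
      simp only [pow_zero, one_mul]
      exact ⟨hτ, le_refl _⟩
    | succ n ih =>
      intro τ hτ
      obtain ⟨h1, h2⟩ := ih τ hτ
      have h3 := hstep _ h1
      have e1 : (ℓ : ℂ) ^ (n + 1) * τ = (ℓ : ℂ) * ((ℓ : ℂ) ^ n * τ) := by ring
      rw [e1]
      refine ⟨im_hecke' hℓ.pos h1, h3.trans ?_⟩
      calc ((ℓ : ℝ) + 1) * (S - GG a ((ℓ : ℂ) ^ n * τ))
          ≤ (ℓ + 1) * ((ℓ + 1) ^ n * (S - GG a τ)) := by gcongr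
        _ = _ := by ring
  -- choose `n`
  obtain ⟨n, hn⟩ := pow_unbounded_of_one_lt (2 * N + 4 * N * K / S) (show (1 : ℝ) < ℓ by linarith)
  set δ : ℝ := S / (2 * (ℓ + 1) ^ n) with hδ
  have hδ0 : 0 < δ := by positivity
  obtain ⟨_, ⟨τ₁, hτ₁, rfl⟩, h4⟩ := exists_lt_of_lt_csSup (⟨_, ⟨τ₀, hτ₀, rfl⟩⟩ :
    (GG a '' {τ : ℂ | 0 < τ.im}).Nonempty) (show S - δ < S by linarith)
  obtain ⟨τ', h5, h6⟩ := exists_high hN hsq hal hτ₁
  have hτ' : 0 < τ'.im := lt_of_lt_of_le (by positivity) h6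
  obtain ⟨h7, h8⟩ := hiter n τ' hτ'
  have h9 : S - GG a τ' < δ := by rw [h5]; linarith
  have h10 : ((ℓ : ℝ) + 1) ^ n * (S - GG a τ') < S / 2 := by
    calc ((ℓ : ℝ) + 1) ^ n * (S - GG a τ') < (ℓ + 1) ^ n * δ := by gcongr
      _ = S / 2 := by
        rw [hδ]
        field_simp
  have him : ((ℓ : ℂ) ^ n * τ').im = (ℓ : ℝ) ^ n * τ'.im := by
    rw [← Nat.cast_pow, Complex.mul_im, Complex.natCast_re, Complex.natCast_im, Nat.cast_pow]
    ring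
  have h11 : (ℓ : ℝ) ^ n / (2 * N) ≤ ((ℓ : ℂ) ^ n * τ').im := by
    rw [him, div_eq_mul_one_div]
    gcongr
  have h12 : 1 + 2 * K / S ≤ (ℓ : ℝ) ^ n / (2 * N) := by
    rw [le_div_iff₀ (by positivity)]
    have e1 : (1 + 2 * K / S) * (2 * (N : ℝ)) = 2 * N + 4 * N * K / S := by
      field_simp
      ring
    rw [e1]
    exact hn.le
  have h13 : 0 ≤ 2 * K / S := by positivity
  have h14 : 1 ≤ ((ℓ : ℂ) ^ n * τ').im := by linarith
  have h15 := hd _ h14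
  have h16 : K / ((ℓ : ℂ) ^ n * τ').im ≤ S / 2 := by
    rw [div_le_iff₀ (by linarith)]
    have h17 : 2 * K / S ≤ ((ℓ : ℂ) ^ n * τ').im := by linarith
    rw [div_le_iff₀ hS0] at h17
    linarith
  linarith

end Pool.Agent.K4H24.SZ
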